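import Pool.Agent.Q43.HQ.Main

/-!
# Maximal angle rank
-/

set_option autoImplicit false
set_option linter.unusedSectionVars false
set_option linter.unusedVariables false

namespace Pool.Agent.Q43.HQ

open NumberField Pool.Agent.H204R3.CM Pool.Agent.W547.KB Pool.Agent.W547.LD Pool.Agent.W547.HR
  Pool.Agent.W495.TA Pool.Agent.W495.TB Pool.Agent.W495.TC Pool.Agent.TH117.F5
  Pool.Agent.TH117.PO Pool.Agent.TH117.BL Module Pool.Agent.W976.TA Equiv Pool.Agent.Q43.HN
  Pool.Agent.Q43.HP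
open scoped TensorProduct

noncomputable section

/-- The signs of the values of a function. -/
theorem exists_sgn {G X : Type} [Group G] [MulAction G X] {c : G}
    (htrans : ∀ x y : X, ∃ h : G, h • x = y) {v : X → ℤ} (hodd : OddF c v) (hS : SgnF G v) {x₁ : X}
    (h1 : v x₁ ≠ 0) : ∃ s : X → ℤ, (∀ x, s x = 1 ∨ s x = -1) ∧ OddF c s ∧ SgnF G s ∧ s x₁ = 1 ∧
      ∀ x, v x = v x₁ * s x := by
  classical
  set m := v x₁ with hm
  have hval : ∀ x, v x = m ∨ v x = -m := by
    intro x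
    obtain ⟨σ, rfl⟩ := htrans x₁ x
    exact hS.abs σ x₁
  have hmm : -m ≠ m := by omega
  let s : X → ℤ := fun x => if v x = m then 1 else -1
  have hs : ∀ x, v x = m * s x := by
    intro x
    change _ = m * if v x = m then 1 else -1
    rcases hval x with h | h
    · rw [if_pos h, h, mul_one]
    · rw [if_neg (by rw [h]; exact hmm), h, mul_neg, mul_one]
  refine ⟨s, fun x => ?_, fun x => ?_, fun σ => ?_, if_pos rfl, hs⟩
  · change (if v x = m then (1 : ℤ) else -1) = 1 ∨ (if v x = m then (1 : ℤ) else -1) = -1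
    split_ifs
    · exact Or.inl rfl
    · exact Or.inr rfl
  · apply mul_left_cancel₀ h1
    rw [← hs, mul_neg, ← hs]
    exact hodd x
  · refine (hS σ).imp (fun h x => ?_) fun h x => ?_
    · apply mul_left_cancel₀ h1
      rw [← hs, ← hs, h]
    · apply mul_left_cancel₀ h1
      rw [← hs, mul_neg, ← hs, h]

section two

variable {L : Type} [Field L] [NumberField L] [IsCMField L] [IsGalois ℚ L] {j : L →+* ℂ}

/-- Fields of degree two. -/
theorem two_points {A : CMPair} (hA : BigA A j) (h2 : finrank ℚ A.E = 2) (φ ψ : A.E →+* L) :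
    ψ = φ ∨ ψ = cc L • φ := by
  classical
  by_contra hcon
  push Not at hcon
  have h1 : Nat.card (A.E →+* L) = finrank ℚ A.E := Pool.Agent.W547.LN.card_hom A j hA
  have hfin : Finite (A.E →+* L) := Nat.finite_of_card_ne_zero (by omega)
  have hset := setting j A
  have h3 : ({φ, cc L • φ, ψ} : Finset (A.E →+* L)).card = 3 := by
    rw [Finset.card_eq_three]
    exact ⟨φ, cc L • φ, ψ, (hset.ne φ).symm, hcon.1.symm, hcon.2.symm, rfl⟩
  let _ : Fintype (A.E →+* L) := Fintype.ofFinite _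
  have h4 := Finset.card_le_univ ({φ, cc L • φ, ψ} : Finset (A.E →+* L))
  rw [h3, ← Nat.card_eq_fintype_card] at h4
  omega

theorem sgn_two {A : CMPair} (hA : BigA A j) (h2 : finrank ℚ A.E = 2) {v : (A.E →+* L) → ℤ}
    (hv : OddF (cc L) v) : SgnF (L ≃ₐ[ℚ] L) v := by
  intro σ
  have hset := setting j A
  by_cases hE : ∃ φ : A.E →+* L, σ • φ = φ
  · obtain ⟨φ, hφ⟩ := hE
    left
    intro ψ
    rcases two_points (j := j) hA h2 φ ψ with rfl | rfl
    · rw [hφ]
    · have h1 : σ • cc L • φ = cc L • σ • φ := by rw [← mul_smul, ← mul_smul, hset.comm]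
      rw [h1, hφ]
  · push Not at hE
    right
    intro ψ
    rw [(two_points (j := j) hA h2 ψ (σ • ψ)).resolve_left (hE ψ), hv]

theorem eigT_two {A : CMPair} (hA : BigA A j) (h2 : finrank ℚ A.E = 2) {M : Type}
    [AddCommGroup M] [Module ℚ M] {ρ : (L ≃ₐ[ℚ] L) →* (M →ₗ[ℚ] M)} {t : (A.E →+* L) → M}
    (ht : IsEqv (cc L) ρ t) : EigT ρ t := by
  intro φ σ
  rw [← ht.equiv]
  rcases two_points (j := j) hA h2 φ (σ • φ) with h | h
  · exact Or.inl (by rw [h])
  · exact Or.inr (by rw [h, ht.odd])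

end two

open Pool.Agent.Y137.MV in
/-- The angle rank is maximal. -/
theorem angle_aux {ι : Type} [Fintype ι] (A : ι → CMPair) {π : ∀ i, (A i).E} {q : ℕ} (hq1 : 1 < q)
    (hw : ∀ i, π i * IsCMField.complexConj (A i).E (π i) = (q : (A i).E))
    (h : IsSeparated q (fun i => (A i).E) π) : MaximalAngleRank q π := by
  classical
  intro r n hrel i₀ φ₀'
  let X : CMAV := ⟨ι, A⟩
  have hne : Nonempty X.I := ⟨i₀⟩
  obtain ⟨L, _, _, _, _, j, hj⟩ := exists_cm X
  have hB : ∀ i, BigA (A i) j := hj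
  have hq0 : (q : L) ≠ 0 := by
    have h1 : q ≠ 0 := by omega
    exact_mod_cast h1
  have hπ : ∀ i, π i ≠ 0 := by
    intro i h0
    have h1 := hw i
    rw [h0, zero_mul] at h1
    have h2 : (q : (A i).E) ≠ 0 := by
      have h3 : q ≠ 0 := by omega
      exact_mod_cast h3
    exact h2 h1.symm
  have hinj : ∀ i, Function.Injective fun φ : (A i).E →+* L => j.comp φ := fun i φ ψ h =>
    cancel_j h
  have hfin : ∀ i, Finite ((A i).E →+* L) := fun i => Finite.of_injective _ (hinj i)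
  let _ : ∀ i, Fintype ((A i).E →+* L) := fun i => Fintype.ofFinite _
  let e : ∀ i, ((A i).E →+* L) ≃ ((A i).E →+* ℂ) := fun i =>
    Equiv.ofBijective (fun φ => j.comp φ) ⟨hinj i, fun φ => hB i φ⟩
  let N : ∀ i, ((A i).E →+* L) → ℤ := fun i φ => n ⟨i, j.comp φ⟩
  have hset : ∀ i, Setting (L ≃ₐ[ℚ] L) ((A i).E →+* L) (cc L) := fun i => setting j (A i)
  have heq : ∀ i, IsEqv (cc L) (urep L) (tp (hπ i) hq0 : ((A i).E →+* L) → UM L) := fun i =>
    isEqv_tp (j := j) (hπ i) hq0 (hw i)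
  -- the relation in the field `L`
  have hL : ∏ i, ∏ φ : (A i).E →+* L, un φ (hπ i) ^ N i φ = Units.mk0 (q : L) hq0 ^ r := by
    ext
    apply j.injective
    rw [Units.coe_prod, map_prod, Units.val_zpow_eq_zpow_val, map_zpow₀, Units.val_mk0,
      map_natCast, ← hrel, Fintype.prod_sigma]
    refine Finset.prod_congr rfl fun i _ => ?_
    rw [Units.coe_prod, map_prod, ← Equiv.prod_comp (e i)]
    refine Finset.prod_congr rfl fun φ _ => ?_
    rw [Units.val_zpow_eq_zpow_val, map_zpow₀]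
    rfl
  set Q : UM L := cl (Units.mk0 (q : L) hq0) with hQ
  have hcl : ∑ i, ∑ φ : (A i).E →+* L, (N i φ : ℚ) • cl (un φ (hπ i)) = (r : ℚ) • Q := by
    rw [hQ, ← cl_zpow, ← hL, cl_prod]
    refine Finset.sum_congr rfl fun i _ => ?_
    rw [cl_prod]
    exact Finset.sum_congr rfl fun φ _ => (cl_zpow _ _).symm
  set T : ∀ i, ((A i).E →+* L) → UM L := fun i => tp (hπ i) hq0 with hT
  have hTN : ∃ b : ℚ, ∑ i, FZ (T i) (N i) = b • Q := by
    refine ⟨2 * r - ∑ i, ∑ φ : (A i).E →+* L, (N i φ : ℚ), ?_⟩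
    rw [sub_smul, mul_smul, ← hcl, Finset.smul_sum, Finset.sum_smul, ← Finset.sum_sub_distrib]
    refine Finset.sum_congr rfl fun i _ => ?_
    rw [Finset.smul_sum, Finset.sum_smul, ← Finset.sum_sub_distrib]
    refine Finset.sum_congr rfl fun φ _ => ?_
    change (N i φ : ℚ) • ((2 : ℚ) • cl (un φ (hπ i)) - Q) = _
    rw [smul_sub, smul_smul, smul_smul, mul_comm]
  obtain ⟨b, hb⟩ := hTN
  have hodd : ∀ i, urep L (cc L) (FZ (T i) (N i)) = -FZ (T i) (N i) := by
    intro i
    unfold FZ FF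
    rw [map_sum, ← Finset.sum_neg_distrib]
    refine Finset.sum_congr rfl fun φ _ => ?_
    rw [map_smul, ← (heq i).equiv, (heq i).odd, smul_neg]
  have hzero : ∑ i, FZ (T i) (N i) = 0 := by
    have h1 : urep L (cc L) (∑ i, FZ (T i) (N i)) = -∑ i, FZ (T i) (N i) := by
      rw [map_sum, ← Finset.sum_neg_distrib]
      exact Finset.sum_congr rfl fun i _ => hodd i
    rw [hb, map_smul, hQ, cl_q, ← hQ, ← hb] at h1
    have h2 : (2 : ℚ) • ∑ i, FZ (T i) (N i) = 0 := by
      rw [two_smul]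
      nth_rewrite 1 [h1]
      rw [neg_add_cancel]
    exact (smul_eq_zero.1 h2).resolve_left two_ne_zero
  let v : ∀ i, ((A i).E →+* L) → ℤ := fun i φ => N i φ - N i (cc L • φ)
  have hcc : ∀ i (φ : (A i).E →+* L), cc L • cc L • φ = φ := fun i φ => by
    rw [← mul_smul, (hset i).sq, one_smul]
  have hv : IsRelT (cc L) T v := by
    refine ⟨fun i φ => ?_, ?_⟩
    · change N i (cc L • φ) - N i (cc L • cc L • φ) = -(N i φ - N i (cc L • φ))
      rw [hcc]
      ring
    · have h1 : ∀ i, FZ (T i) (v i) = (2 : ℚ) • FZ (T i) (N i) := by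
        intro i
        have h2 : FZ (T i) (fun φ => N i (cc L • φ)) = -FZ (T i) (N i) := by
          rw [FZ_smul (heq i), (show (cc L)⁻¹ = cc L from inv_eq_of_mul_eq_one_left (hset i).sq),
            hodd]
        change FZ (T i) (fun φ => N i φ - N i (cc L • φ)) = _
        rw [FZ_sub, h2, two_smul, sub_neg_eq_add]
      rw [Finset.sum_congr rfl fun i _ => h1 i, ← Finset.smul_sum, hzero, smul_zero]
  have hcomm : ∀ g : L ≃ₐ[ℚ] L, cc L * g = g * cc L := (hset i₀).comm
  have htrans : ∀ i (x y : (A i).E →+* L), ∃ g : L ≃ₐ[ℚ] L, g • x = y := fun i => (hset i).trans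
  have hdeg : ∀ i, finrank ℚ (A i).E = 2 ∨ 2 < finrank ℚ (A i).E := by
    intro i
    rcases h.typed i with h1 | ⟨h1, -⟩ | ⟨g, hg, -, h1⟩ | ⟨h1, -⟩
    · exact Or.inl h1
    · exact Or.inr (by omega)
    · right
      have h1' : finrank ℚ (A i).E = 2 * g := h1
      have := hg.two_le
      omega
    · exact Or.inr (by omega)
  have hS : ∀ i, SgnF (L ≃ₐ[ℚ] L) (v i) := by
    intro i
    rcases hdeg i with h2 | h2
    · exact sgn_two (j := j) (hB i) h2 (hv.odd i)
    · obtain ⟨hR, hI⟩ := typed_data (hB i) h2 (h.typed i)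
      refine (sgn_of_sep hcomm htrans heq hR (hI _ _ _ (heq i)) (fun k hk => ?_) hv).resolve_left
        (not_eigT (j := j) (hπ i) hq0 (hB i) (hw i) (h.generated i) h2)
      rcases hdeg k with hk2 | hk2
      · exact Or.inl (eigT_two (j := j) (hB k) hk2 (heq k))
      · right
        have hcl := h.closure i k hk.symm h2 hk2
        by_cases h3 : clos (A i) ≤ clos (A k)
        · right
          refine ⟨(typed_data (hB k) hk2 (h.typed k)).1, ?_⟩
          by_contra hcon
          push Not at hcon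
          exact hcl (le_antisymm h3 (closure_le (hB k) fun τ hτ => hcon τ hτ))
        · left
          by_contra hcon
          push Not at hcon
          exact h3 (closure_le (hB i) fun τ hτ => hcon τ hτ)
  -- the conclusion
  by_contra hcon
  obtain ⟨φ₀, hφ₀⟩ := hB i₀ φ₀'
  have hv0 : v i₀ φ₀ ≠ 0 := by
    intro h0
    apply hcon
    have h1 : N i₀ φ₀ = N i₀ (cc L • φ₀) := sub_eq_zero.1 h0
    change n ⟨i₀, j.comp φ₀⟩ = n ⟨i₀, j.comp (cc L • φ₀)⟩ at h1
    rw [Pool.Agent.TH117.BL.comp_cc, hφ₀] at h1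
    exact h1
  obtain ⟨s, hs1, hs2, hs3, hs4, hs5⟩ := exists_sgn (hset i₀).trans (hv.odd i₀) (hS i₀) hv0
  obtain ⟨d, θ, t, hd, hθ, ht, h1, h2, h3, h4⟩ := exists_quad j hs1 hs2 hs3 φ₀ hs4
  obtain ⟨hbal, hoth⟩ := h.quadratic i₀ t d hd ht
  have hnn := ne_neg_root hd hθ
  have hcz : FZ (T i₀) (v i₀) = 0 := by
    refine contr_zero heq hv (hS i₀) fun k hk x => ?_
    by_contra hcon'
    push Not at hcon'
    obtain ⟨t', ht'⟩ := mem_range x (θ := θ) fun σ hσ => by
      apply h1
      rcases hs3 σ with h5 | h5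
      · exact h5
      · obtain ⟨y, hy⟩ := hcon' σ hσ
        refine absurd ?_ hy
        rw [hs5, h5, hs5 y, mul_neg]
    refine hoth k hk t' ?_
    apply x.injective
    rw [map_pow, ht', hθ, map_neg, map_natCast]
  have him : (j θ).im ≠ 0 := im_ne_root hd (by rw [← map_pow, hθ, map_neg, map_natCast])
  have hneg : ∀ z : L, (j (-z)).im = -(j z).im := fun z => by rw [map_neg, Complex.neg_im]
  have hsP : ∃ u : ℤ, u ≠ 0 ∧ ∀ φ : (A i₀).E →+* L,
      (if 0 < (j (φ t)).im then (1 : ℤ) else -1) = u * s φ := by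
    rcases lt_or_gt_of_ne him with h0 | h0
    · refine ⟨-1, by norm_num, fun φ => ?_⟩
      rcases hs1 φ with e1 | e1
      · rw [h3 φ e1, if_neg (not_lt.2 h0.le), e1]
        norm_num
      · rw [h4 φ e1, if_pos (by rw [hneg]; linarith), e1]
        norm_num
    · refine ⟨1, by norm_num, fun φ => ?_⟩
      rcases hs1 φ with e1 | e1
      · rw [h3 φ e1, if_pos h0, e1]
        norm_num
      · rw [h4 φ e1, if_neg (by rw [hneg]; linarith), e1]
        norm_num
  obtain ⟨u, hu, hus⟩ := hsP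
  have hP : ∀ φ : (A i₀).E →+* L, 0 < (j ((cc L • φ) t)).im ↔ ¬ 0 < (j (φ t)).im := by
    intro φ
    have e1 := hus (cc L • φ)
    have e2 := hus φ
    have e3 : s (cc L • φ) = -s φ := hs2 φ
    rw [e3, mul_neg, ← e2] at e1
    by_cases h5 : 0 < (j (φ t)).im
    · rw [if_pos h5] at e1
      constructor
      · intro h6
        rw [if_pos h6] at e1
        norm_num at e1
      · intro h6
        exact absurd h5 h6
    · rw [if_neg h5] at e1
      constructor
      · intro _
        exact h5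
      · intro _
        by_contra h6
        rw [if_neg h6] at e1
        norm_num at e1
  obtain ⟨hhalf, -⟩ := half_sum (hπ i₀) hq0 j (heq i₀)
    (fun φ : (A i₀).E →+* L => 0 < (j (φ t)).im) hP
  refine hbal (balanced_of (j := j) (hπ i₀) hq0 (hB i₀) (hw i₀) hd ht ?_)
  have hm : ((v i₀ φ₀ : ℤ) : ℚ) ≠ 0 := by exact_mod_cast hv0
  have hsum : ((v i₀ φ₀ : ℤ) : ℚ) • ∑ φ : (A i₀).E →+* L,
      (if 0 < (j (φ t)).im then (1 : ℚ) else -1) • tp (hπ i₀) hq0 φ =
      (u : ℚ) • FZ (T i₀) (v i₀) := by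
    unfold FZ FF
    rw [Finset.smul_sum, Finset.smul_sum]
    refine Finset.sum_congr rfl fun φ _ => ?_
    have e1 : (if 0 < (j (φ t)).im then (1 : ℚ) else -1) = ((u * s φ : ℤ) : ℚ) := by
      rw [← hus φ]
      split_ifs <;> norm_num
    change _ = (u : ℚ) • ((v i₀ φ : ℤ) : ℚ) • tp (hπ i₀) hq0 φ
    rw [e1, hs5 φ, smul_smul, smul_smul]
    congr 1
    push_cast
    ring
  rw [hcz, smul_zero, hhalf, smul_smul] at hsum
  exact (smul_eq_zero.1 hsum).resolve_left (mul_ne_zero hm two_ne_zero)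

open Pool.Agent.Y137.MV in
/-- The angle rank of a separated family of Weil numbers is maximal. -/
theorem maximalAngleRank {ι : Type} [Fintype ι] {K : ι → Type} [∀ i, Field (K i)]
    [∀ i, NumberField (K i)] [∀ i, IsCMField (K i)] {q : ℕ} (hq1 : 1 < q) {π : ∀ i, K i}
    (hw : ∀ i, π i * IsCMField.complexConj (K i) (π i) = (q : K i)) (h : IsSeparated q K π) :
    MaximalAngleRank q π :=
  angle_aux (fun i => pr (K i)) hq1 hw h

end

end Pool.Agent.Q43.HQ
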