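import Pool.Agent.Q43.HQ.Cond
import Pool.Agent.W495.TC.Stms
import Pool.Agent.W495.FM.HomDefs

/-!
# The class of abelian varieties over finite fields whose simple factors are separated by the Galois
closures of their CM fields
-/

set_option autoImplicit false

namespace Pool.Agent.Q43.HQ

open NumberField Pool.Agent.W495.TA Pool.Agent.W495.FM

variable {p : ℕ} [Fact p.Prime] {ν : PadicAlgCl p ≃+* ℂ}

/-- There are CM fields `K i` with Weil numbers `π i` for `p ^ a`, satisfying the conditions
`IsSeparated`, such that `Y` is isogenous, over an algebraic closure, to a product of a supersingular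
abelian variety and of powers of the abelian varieties with the Weil numbers `π i`: each factor of `Y`
is supersingular, or a power of its Frobenius endomorphism is the image of a power of some `π i` under
an embedding of `K i`. -/
def IsSeparatedProduct (Y : RedAV p ν) : Prop :=
  ∃ (ι : Type) (_ : Fintype ι) (K : ι → Type) (_ : ∀ i, Field (K i)) (_ : ∀ i, NumberField (K i))
    (_ : ∀ i, IsCMField (K i)) (a : ℕ) (π : ∀ i, K i), 0 < a ∧
    (∀ i, π i * IsCMField.complexConj (K i) (π i) = (p : K i) ^ a) ∧ IsSeparated (p ^ a) K π ∧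
    ∀ k : Y.X.I, Pool.Agent.W495.TC.IsSupersingular Y k ∨
      ∃ (i : ι) (θ : K i →+* (Y.X.factor k).E) (s t : ℕ), 0 < s ∧ Y.a * s = a * t ∧
        Y.π k ^ s = θ (π i) ^ t

/-- The groups of motivic and of `ℓ`-adic homology of `X` are those of an abelian variety `Y` as
above. -/
def IsSeparatedAbelian {Ω V : Type} [Field Ω] [CharZero Ω] (p : ℕ) [Fact p.Prime]
    (ν : PadicAlgCl p ≃+* ℂ) (T : Homology Ω V) (X : V) : Prop :=
  ∃ (Y : RedAV p ν) (C : Cycles Ω Y) (M : Motivic C) (g : ℕ), IsSeparatedProduct Y ∧ IsChow C ∧
    IsMotivic M ∧ IsAbelian T X M g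

end Pool.Agent.Q43.HQ
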