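import Pool.Agent.Q43.HP.Cond

/-!
# Families of Weil numbers separated by the Galois closures of their CM fields
-/

set_option autoImplicit false

namespace Pool.Agent.Q43.HQ

open NumberField Module IntermediateField Pool.Agent.Q43.HP

/-- The degree of the field is two, or four (without imaginary quadratic subfields), or twice an odd
prime number, or it is larger than four and the odd functions on the complex embeddings, orthogonal to
an odd function with signs (or to none), are an irreducible representation. -/
def IsTyped (K : Type) [Field K] [NumberField K] : Prop :=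
  finrank ℚ K = 2 ∨ (finrank ℚ K = 4 ∧ ∀ (t : K) (d : ℕ), 0 < d → t ^ 2 ≠ -(d : K)) ∨
    (∃ g : ℕ, g.Prime ∧ g ≠ 2 ∧ finrank ℚ K = 2 * g) ∨ (4 < finrank ℚ K ∧ IsIrreducible K)

open Classical in
/-- The norm of `π` to the imaginary quadratic field `ℚ(t)` (the product of the `φ π` for the embeddings
`φ` for which the imaginary part of `φ t` is positive) is a power of the square root of `q`, up to a
root of unity. -/
def IsBalanced (q : ℕ) {K : Type} [Field K] [NumberField K] (π t : K) : Prop :=
  ∃ s : ℕ, 0 < s ∧ (∏ φ : K →+* ℂ, if 0 < (φ t).im then φ π else 1) ^ (4 * s) =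
    (q : ℂ) ^ (s * finrank ℚ K)

/-- Conditions on the Weil numbers `π i` for `q` in the fields `K i`:

* the powers of `π i` generate `K i`;
* the fields `K i` are of one of the types above;
* the Galois closures of `K i` and `K k`, `i ≠ k`, are different if both fields have degree at least
  four;
* no imaginary quadratic field is contained in two of the fields, and the norm of `π i` to an imaginary
  quadratic subfield of `K i` is not a power of the square root of `q`, up to a root of unity. -/
structure IsSeparated {ι : Type} (q : ℕ) (K : ι → Type) [∀ i, Field (K i)]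
    [∀ i, NumberField (K i)] (π : ∀ i, K i) : Prop where
  generated : ∀ (i : ι) (n : ℕ), 0 < n → ℚ⟮π i ^ n⟯ = ⊤
  typed : ∀ i, IsTyped (K i)
  closure : ∀ i k, i ≠ k → 2 < finrank ℚ (K i) → 2 < finrank ℚ (K k) →
    normalClosure ℚ (K i) ℂ ≠ normalClosure ℚ (K k) ℂ
  quadratic : ∀ (i : ι) (t : K i) (d : ℕ), 0 < d → t ^ 2 = -(d : K i) →
    ¬ IsBalanced q (π i) t ∧ ∀ k, k ≠ i → ∀ t' : K k, t' ^ 2 ≠ -(d : K k)

end Pool.Agent.Q43.HQ
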