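import Pool.Agent.Q43.HQ.Angle
import Pool.Agent.Q43.HQ.Class
import Pool.Agent.TH170.GS.Rel

/-!
# Maximal angle rank and the relations between the Frobenius eigenvalues
-/

set_option autoImplicit false
set_option linter.unusedSectionVars false
set_option linter.unusedVariables false

namespace Pool.Agent.Q43.HQ

open NumberField Module Pool.Agent.W495.TA Pool.Agent.W495.TC Pool.Agent.TH117
  Pool.Agent.TH170 Pool.Agent.TH170.GS Pool.Agent.Y137.MV

variable {p : ℕ} [Fact p.Prime] {ν : PadicAlgCl p ≃+* ℂ}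

theorem conj_mul {K : Type} [Field K] [NumberField K] [IsCMField K] {π : K} {a : ℕ}
    (hw : π * IsCMField.complexConj K π = (p : K) ^ a) (φ : K →+* ℂ) :
    φ π * ComplexEmbedding.conjugate φ π = (p : ℂ) ^ a := by
  have h1 := congrArg φ hw
  rw [map_mul, IsCMField.complexEmbedding_complexConj, map_pow, map_natCast] at h1
  rw [ComplexEmbedding.conjugate_coe_eq]
  exact h1

theorem conj_ne {K : Type} [Field K] [NumberField K] [IsCMField K] (φ : K →+* ℂ) :
    ComplexEmbedding.conjugate φ ≠ φ := by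
  obtain ⟨Φ, hΦ⟩ := exists_cmType K
  intro h
  have h1 := hΦ φ
  rw [h] at h1
  exact iff_not_self h1

/-- All relations are elementary. -/
theorem elementary_of_angle {ι : Type} [Fintype ι] {K : ι → Type} [∀ i, Field (K i)]
    [∀ i, NumberField (K i)] [∀ i, IsCMField (K i)] {a : ℕ} (ha : 0 < a) {π : ∀ i, K i}
    (hw : ∀ i, π i * IsCMField.complexConj (K i) (π i) = (p : K i) ^ a)
    (hang : MaximalAngleRank (p ^ a) π) {Y : RedAV p ν}
    (hY : ∀ k : Y.X.I, IsSupersingular Y k ∨
      ∃ (i : ι) (θ : K i →+* (Y.X.factor k).E) (s t : ℕ), 0 < s ∧ Y.a * s = a * t ∧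
        Y.π k ^ s = θ (π i) ^ t) : BL.HasElementaryRelations Y := by
  classical
  intro e he
  obtain ⟨s₀, hs₀, hrel⟩ := he
  have hss : ∀ k, IsSupersingular Y k → ∃ s : ℕ, 0 < s ∧
      (Y.π k) ^ (2 * s) = ((p : (Y.X.factor k).E) ^ Y.a) ^ s := fun k h => h
  choose u hu1 hu2 using hss
  have hY' : ∀ k, ¬ IsSupersingular Y k → ∃ (i : ι) (θ : K i →+* (Y.X.factor k).E) (s t : ℕ),
      0 < s ∧ Y.a * s = a * t ∧ Y.π k ^ s = θ (π i) ^ t := fun k h => (hY k).resolve_left h
  choose i θ s t hs hst hθ using hY'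
  let m : Y.X.I → ℕ := fun k => if h : IsSupersingular Y k then u k h else s k h
  have hm : ∀ k, 0 < m k := by
    intro k
    change 0 < if h : IsSupersingular Y k then u k h else s k h
    split_ifs with h
    · exact hu1 k h
    · exact hs k h
  let S : ℕ := ∏ k, m k
  have hS : 0 < S := Finset.prod_pos fun k _ => hm k
  have hmS : ∀ k, ∃ c, S = m k * c := fun k => Finset.dvd_prod_of_mem m (Finset.mem_univ k)
  let T : ℕ := Y.a * S / a
  have hp0 : (p : ℂ) ≠ 0 := Nat.cast_ne_zero.2 (Fact.out : p.Prime).ne_zero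
  -- the eigenvalues
  have h1 : ∀ w : BL.Emb Y, IsSupersingular Y w.1 →
      BL.eig Y w ^ (2 * S) = ((p : ℂ) ^ Y.a) ^ S := by
    intro w h
    obtain ⟨c, hc⟩ := hmS w.1
    have h2 : m w.1 = u w.1 h := dif_pos h
    rw [h2] at hc
    have h3 := congrArg w.2 (hu2 w.1 h)
    rw [map_pow, map_pow, map_pow, map_natCast] at h3
    rw [hc, ← mul_assoc, pow_mul, pow_mul (_ ^ Y.a)]
    exact congrArg (fun x => x ^ c) h3
  have h2 : ∀ (w : BL.Emb Y) (h : ¬ IsSupersingular Y w.1), a * T = Y.a * S ∧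
      BL.eig Y w ^ S = (w.2.comp (θ w.1 h)) (π (i w.1 h)) ^ T := by
    intro w h
    obtain ⟨c, hc⟩ := hmS w.1
    have h2 : m w.1 = s w.1 h := dif_neg h
    rw [h2] at hc
    have h3 : Y.a * S = a * (t w.1 h * c) := by
      rw [hc, ← mul_assoc, hst, mul_assoc]
    have h4 : T = t w.1 h * c := by
      change Y.a * S / a = _
      rw [h3, Nat.mul_div_cancel_left _ ha]
    refine ⟨by rw [h4, h3], ?_⟩
    have h5 := congrArg w.2 (hθ w.1 h)
    rw [map_pow, map_pow] at h5
    rw [hc, h4, pow_mul, pow_mul]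
    exact congrArg (fun x => x ^ c) h5
  let X : Type := Σ i, (K i →+* ℂ)
  let inv : X → X := fun z => ⟨z.1, ComplexEmbedding.conjugate z.2⟩
  have hinv : ∀ z, inv (inv z) = z := by
    rintro ⟨i, φ⟩
    simp only [inv, Pool.Agent.TH170.MF.conj_conj]
  have hfix : ∀ z, inv z ≠ z := by
    rintro ⟨i, φ⟩ h
    exact conj_ne φ (eq_of_heq (Sigma.mk.inj h).2)
  let F : BL.Emb Y → Option X := fun w =>
    if h : IsSupersingular Y w.1 then none else some ⟨i w.1 h, w.2.comp (θ w.1 h)⟩
  have hF1 : ∀ w, IsSupersingular Y w.1 → F w = none := fun w h => dif_pos h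
  have hF2 : ∀ w (h : ¬ IsSupersingular Y w.1), F w = some ⟨i w.1 h, w.2.comp (θ w.1 h)⟩ :=
    fun w h => dif_neg h
  have hFn : ∀ w, F w = none → IsSupersingular Y w.1 := by
    intro w hw
    by_contra h
    rw [hF2 w h] at hw
    exact absurd hw (by simp)
  have hFs : ∀ w z, F w = some z → a * T = Y.a * S ∧ BL.eig Y w ^ S = z.2 (π z.1) ^ T := by
    intro w z hz
    by_cases h : IsSupersingular Y w.1
    · rw [hF1 w h] at hz
      exact absurd hz (by simp)
    · rw [hF2 w h] at hz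
      rw [← Option.some.inj hz]
      exact h2 w h
  have hFc : ∀ w z, F w = some z → F (conjE w) = some (inv z) := by
    intro w z hz
    by_cases h : IsSupersingular Y w.1
    · rw [hF1 w h] at hz
      exact absurd hz (by simp)
    · rw [hF2 w h] at hz
      rw [← Option.some.inj hz, hF2 (conjE w) h]
      rfl
  -- the relation
  let E : X → ℕ := fun z => ∑ w, if F w = some z then e w else 0
  have hπ0 : ∀ z : X, z.2 (π z.1) ≠ 0 := by
    intro z h
    have h3 := conj_mul (hw z.1) z.2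
    rw [h, zero_mul] at h3
    exact pow_ne_zero a hp0 h3.symm
  let G : Option X → ℂ := fun o => match o with
    | none => 1
    | some z => z.2 (π z.1) ^ (2 * T) / ((p : ℂ) ^ a) ^ T
  have hG : ∀ w, BL.eig Y w ^ (2 * S) = G (F w) * ((p : ℂ) ^ Y.a) ^ S := by
    intro w
    rcases hw' : F w with _ | z
    · change _ = 1 * _
      rw [one_mul, h1 w (hFn w hw')]
    · change _ = z.2 (π z.1) ^ (2 * T) / ((p : ℂ) ^ a) ^ T * _
      obtain ⟨h3, h4⟩ := hFs w z hw'
      have h5 : ((p : ℂ) ^ Y.a) ^ S = ((p : ℂ) ^ a) ^ T := by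
        rw [← pow_mul, ← pow_mul, h3]
      rw [h5, div_mul_cancel₀ _ (pow_ne_zero _ (pow_ne_zero _ hp0)), mul_comm 2 S, pow_mul, h4,
        ← pow_mul, mul_comm T 2]
  have hprod : ∏ w, G (F w) ^ (e w * s₀) = 1 := by
    have h3 : (∏ w, BL.eig Y w ^ e w) ^ (2 * s₀ * S) = (((p : ℂ) ^ Y.a) ^ (s₀ * ∑ w, e w)) ^ S := by
      rw [pow_mul, hrel]
    have h4 : (∏ w, BL.eig Y w ^ e w) ^ (2 * s₀ * S) =
        (∏ w, G (F w) ^ (e w * s₀)) * (((p : ℂ) ^ Y.a) ^ (s₀ * ∑ w, e w)) ^ S := by
      rw [← pow_mul, Finset.mul_sum, Finset.sum_mul, ← Finset.prod_pow_eq_pow_sum,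
        ← Finset.prod_mul_distrib, ← Finset.prod_pow]
      refine Finset.prod_congr rfl fun w _ => ?_
      have h5 : (BL.eig Y w ^ e w) ^ (2 * s₀ * S) = (BL.eig Y w ^ (2 * S)) ^ (e w * s₀) := by
        rw [← pow_mul, ← pow_mul]
        congr 1
        ring
      rw [h5, hG, mul_pow, ← pow_mul]
      congr 2
      ring
    rw [h3] at h4
    have h5 : (((p : ℂ) ^ Y.a) ^ (s₀ * ∑ w, e w)) ^ S ≠ 0 :=
      pow_ne_zero _ (pow_ne_zero _ (pow_ne_zero _ hp0))
    exact mul_right_cancel₀ h5 (by rw [one_mul]; exact h4.symm)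
  have hgroup : ∏ w, G (F w) ^ (e w * s₀) = ∏ z : X, G (some z) ^ (E z * s₀) := by
    have h3 : ∀ w, G (F w) ^ (e w * s₀) =
        ∏ z : X, G (some z) ^ ((if F w = some z then e w else 0) * s₀) := by
      intro w
      rcases hw' : F w with _ | z
      · change (1 : ℂ) ^ _ = _
        rw [one_pow]
        symm
        refine Finset.prod_eq_one fun z _ => ?_
        rw [if_neg (by simp), zero_mul, pow_zero]
      · rw [Finset.prod_eq_single z]
        · rw [if_pos rfl]
        · intro z' _ hz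
          rw [if_neg (fun h => hz (Option.some.inj h).symm), zero_mul, pow_zero]
        · intro h
          exact absurd (Finset.mem_univ _) h
    rw [Finset.prod_congr rfl fun w _ => h3 w, Finset.prod_comm]
    refine Finset.prod_congr rfl fun z _ => ?_
    rw [Finset.prod_pow_eq_pow_sum, ← Finset.sum_mul]
  have hrel' : ∏ z : X, (z.2 (π z.1)) ^ ((2 * T * s₀ * E z : ℕ) : ℤ) =
      (((p ^ a : ℕ)) : ℂ) ^ ((∑ z, T * s₀ * E z : ℕ) : ℤ) := by
    rw [hgroup] at hprod
    have h3 : ∀ z : X, G (some z) ^ (E z * s₀) =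
        (z.2 (π z.1)) ^ (2 * T * s₀ * E z) / ((p : ℂ) ^ a) ^ (T * s₀ * E z) := by
      intro z
      change (z.2 (π z.1) ^ (2 * T) / ((p : ℂ) ^ a) ^ T) ^ _ = _
      rw [div_pow, ← pow_mul, ← pow_mul]
      congr 2
      · ring
      · ring
    rw [Finset.prod_congr rfl fun z _ => h3 z, Finset.prod_div_distrib,
      Finset.prod_pow_eq_pow_sum, div_eq_one_iff_eq (pow_ne_zero _ (pow_ne_zero _ hp0))] at hprod
    rw [zpow_natCast, Nat.cast_pow, ← hprod]
    exact Finset.prod_congr rfl fun z _ => zpow_natCast _ _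
  have hE : ∀ z : X, E z = E (inv z) := by
    rintro ⟨i', φ⟩
    by_cases hT : T = 0
    · have h3 : ∀ z, E z = 0 := by
        intro z
        refine Finset.sum_eq_zero fun w _ => ?_
        refine if_neg fun h => ?_
        have h4 := (hFs w z h).1
        rw [hT, mul_zero] at h4
        have h5 : 0 < Y.a * S := Nat.mul_pos Y.pos hS
        omega
      rw [h3, h3]
    · have h3 := hang _ (fun z => ((2 * T * s₀ * E z : ℕ) : ℤ)) hrel' i' φ
      have h4 : 2 * T * s₀ * E ⟨i', φ⟩ = 2 * T * s₀ * E (inv ⟨i', φ⟩) := by exact_mod_cast h3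
      exact Nat.eq_of_mul_eq_mul_left (by positivity) h4
  refine mem_of_symm _ F inv hinv hfix ?_ ?_ ?_ (fun w => (e w : ℤ)) ?_
  · intro w hw'
    exact single_mem w (hFn w hw')
  · intro w w' z hz hz'
    have hne : w ≠ w' := by
      rintro rfl
      rw [hz] at hz'
      exact hfix z (Option.some.inj hz').symm
    have hsum : ∑ v, (Pi.single w 1 + Pi.single w' 1 : BL.Emb Y → ℕ) v = 2 := by
      simp only [Pi.add_apply, Finset.sum_add_distrib, Finset.sum_pi_single', Finset.mem_univ,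
        if_true]
    refine AddSubgroup.subset_closure ⟨Pi.single w 1 + Pi.single w' 1, ?_, Or.inl hsum.le,
      fun v => ?_⟩
    · refine ⟨S, hS, ?_⟩
      rw [hsum]
      have h3 : ∏ v, BL.eig Y v ^ (Pi.single w 1 + Pi.single w' 1 : BL.Emb Y → ℕ) v =
          BL.eig Y w * BL.eig Y w' := by
        have h4 : ∀ v, BL.eig Y v ^ (Pi.single w 1 + Pi.single w' 1 : BL.Emb Y → ℕ) v =
            (if v = w then BL.eig Y v else 1) * (if v = w' then BL.eig Y v else 1) := by
          intro v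
          rw [Pi.add_apply, pow_add, Pi.single_apply, Pi.single_apply]
          split_ifs <;> simp
        rw [Finset.prod_congr rfl fun v _ => h4 v, Finset.prod_mul_distrib,
          Finset.prod_ite_eq', Finset.prod_ite_eq', if_pos (Finset.mem_univ _),
          if_pos (Finset.mem_univ _)]
      rw [h3]
      obtain ⟨h4, h5⟩ := hFs w z hz
      obtain ⟨-, h6⟩ := hFs w' (inv z) hz'
      have h7 : (BL.eig Y w * BL.eig Y w') ^ S = ((p : ℂ) ^ Y.a) ^ S := by
        rw [mul_pow, h5, h6, ← mul_pow]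
        change (z.2 (π z.1) * ComplexEmbedding.conjugate z.2 (π z.1)) ^ T = _
        rw [conj_mul (hw z.1) z.2, ← pow_mul, ← pow_mul, h4]
      rw [mul_comm 2 S, pow_mul, h7, pow_mul]
    · rw [Pi.add_apply, Pi.add_apply, Nat.cast_add]
      simp only [Pi.single_apply]
      split_ifs <;> simp
  · intro w z hz
    exact ⟨conjE w, hFc w z hz⟩
  · intro z
    have h3 := hE z
    have h4 : ((∑ w, (if F w = some z then e w else 0) : ℕ) : ℤ) =
        ((∑ w, (if F w = some (inv z) then e w else 0) : ℕ) : ℤ) := by exact_mod_cast h3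
    push_cast at h4
    exact h4

/-- The relations of a separated product. -/
theorem elementary_of_product {Y : RedAV p ν} (hY : IsSeparatedProduct Y) :
    BL.HasElementaryRelations Y := by
  obtain ⟨ι, _, K, _, _, _, a, π, ha, hw, hsep, h⟩ := hY
  exact elementary_of_angle ha hw (maximalAngleRank
    (Nat.one_lt_pow ha.ne' (Fact.out : p.Prime).one_lt)
    (fun i => by rw [hw i, Nat.cast_pow]) hsep) h

end Pool.Agent.Q43.HQ
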