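import Pool.Agent.Q43.HP.Irr

/-!
# Equivariant maps from a set with a group action to a representation
-/

set_option autoImplicit false
set_option linter.unusedSectionVars false
set_option linter.unusedVariables false

namespace Pool.Agent.Q43.HQ

open Pool.Agent.Q43.HP
open Pool.Agent.Q43.HN (cyc)

noncomputable section

variable {G : Type} [Group G] {M : Type} [AddCommGroup M] [Module ℚ M]

/-- The group acts on the vector by signs. -/
def IsEigM (ρ : G →* (M →ₗ[ℚ] M)) (m : M) : Prop := ∀ σ : G, ρ σ m = m ∨ ρ σ m = -m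

section vec

variable {ρ : G →* (M →ₗ[ℚ] M)}

theorem rho_mul (a b : G) (m : M) : ρ (a * b) m = ρ a (ρ b m) := by
  rw [map_mul]
  rfl

theorem rho_one (m : M) : ρ 1 m = m := by
  rw [map_one]
  rfl

theorem rho_inv_self (a : G) (m : M) : ρ a⁻¹ (ρ a m) = m := by
  rw [← rho_mul, inv_mul_cancel, rho_one]

theorem rho_self_inv (a : G) (m : M) : ρ a (ρ a⁻¹ m) = m := by
  rw [← rho_mul, mul_inv_cancel, rho_one]

theorem eigM_neg {m : M} (h : IsEigM ρ m) : IsEigM ρ (-m) := fun σ => by
  rw [map_neg]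
  exact (h σ).imp (fun h' => by rw [h']) fun h' => by rw [h']

theorem eigM_smul {m : M} (h : IsEigM ρ m) (a : ℚ) : IsEigM ρ (a • m) := fun σ => by
  rw [map_smul]
  exact (h σ).imp (fun h' => by rw [h']) fun h' => by rw [h', smul_neg]

theorem eigM_zero : IsEigM ρ (0 : M) := fun σ => Or.inl (map_zero _)

theorem eigM_rho {m : M} (h : IsEigM ρ m) (σ : G) : IsEigM ρ (ρ σ m) := by
  rcases h σ with h' | h'
  · rw [h']
    exact h
  · rw [h']
    exact eigM_neg h

theorem rho_inv_eq {m : M} {σ : G} (h : ρ σ m = m) : ρ σ⁻¹ m = m := by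
  conv_lhs => rw [← h]
  rw [rho_inv_self]

theorem rho_inv_neg {m : M} {σ : G} (h : ρ σ m = -m) : ρ σ⁻¹ m = -m := by
  have h1 : ρ σ⁻¹ (ρ σ m) = m := rho_inv_self σ m
  rw [h, map_neg] at h1
  exact neg_eq_iff_eq_neg.1 h1

theorem rho_comm {m : M} (h : IsEigM ρ m) (a b : G) : ρ (a * b * a⁻¹ * b⁻¹) m = m := by
  rw [rho_mul, rho_mul, rho_mul]
  rcases h a with h1 | h1 <;> rcases h b with h2 | h2
  · rw [rho_inv_eq h2, rho_inv_eq h1, h2, h1]
  · rw [rho_inv_neg h2, map_neg, rho_inv_eq h1, map_neg, h2, neg_neg, h1]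
  · rw [rho_inv_eq h2, rho_inv_neg h1, map_neg, h2, map_neg, h1, neg_neg]
  · rw [rho_inv_neg h2, map_neg, rho_inv_neg h1, neg_neg, h2, map_neg, h1, neg_neg]

theorem rho_sq {m : M} (h : IsEigM ρ m) (a : G) : ρ (a * a) m = m := by
  rw [rho_mul]
  rcases h a with h1 | h1
  · rw [h1, h1]
  · rw [h1, map_neg, h1, neg_neg]

theorem rho_odd {m : M} (h : IsEigM ρ m) {τ : G} (hτ : Odd (orderOf τ)) : ρ τ m = m := by
  rcases h τ with h1 | h1
  · exact h1
  · have h2 : ∀ k : ℕ, ρ (τ ^ (2 * k)) m = m := by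
      intro k
      induction k with
      | zero => rw [mul_zero, pow_zero, rho_one]
      | succ k ih =>
        have h3 : τ ^ (2 * (k + 1)) = τ ^ (2 * k) * (τ * τ) := by
          rw [mul_add, mul_one, pow_add, pow_two]
        rw [h3, rho_mul, rho_sq h, ih]
    obtain ⟨k, hk⟩ := hτ
    have h3 : ρ (τ ^ orderOf τ) m = -m := by
      rw [hk, pow_succ', rho_mul, h2, h1]
    rw [pow_orderOf_eq_one, rho_one] at h3
    have h4 : (2 : ℚ) • m = 0 := by
      rw [two_smul]
      nth_rewrite 1 [h3]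
      rw [neg_add_cancel]
    have h5 : m = 0 := (smul_eq_zero.1 h4).resolve_left two_ne_zero
    rw [h5, map_zero]

/-- The space spanned by the vectors on which the group acts by signs. -/
def EigSpan (ρ : G →* (M →ₗ[ℚ] M)) : Submodule ℚ M := Submodule.span ℚ {m | IsEigM ρ m}

theorem mem_eigSpan {m : M} (h : IsEigM ρ m) : m ∈ EigSpan ρ := Submodule.subset_span h

theorem fix_eigSpan {κ : G} (hκ : ∀ m : M, IsEigM ρ m → ρ κ m = m) {m : M} (hm : m ∈ EigSpan ρ) :
    ρ κ m = m := by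
  have h1 : EigSpan ρ ≤ LinearMap.ker (ρ κ - LinearMap.id) := by
    refine Submodule.span_le.2 fun m hm => ?_
    refine LinearMap.mem_ker.2 ?_
    rw [LinearMap.sub_apply, LinearMap.id_apply, hκ m hm, sub_self]
  have h2 := LinearMap.mem_ker.1 (h1 hm)
  rw [LinearMap.sub_apply, LinearMap.id_apply] at h2
  exact sub_eq_zero.1 h2

theorem rho_eigSpan {m : M} (hm : m ∈ EigSpan ρ) (σ : G) : ρ σ m ∈ EigSpan ρ := by
  have h1 : EigSpan ρ ≤ (EigSpan ρ).comap (ρ σ) := by
    refine Submodule.span_le.2 fun m hm => ?_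
    exact Submodule.mem_comap.2 (mem_eigSpan (eigM_rho hm σ))
  exact h1 hm

end vec

section map

variable {X : Type} [MulAction G X] [Fintype X]

/-- Equivariant maps which change the sign under `c`. -/
structure IsEqv (c : G) (ρ : G →* (M →ₗ[ℚ] M)) (t : X → M) : Prop where
  equiv : ∀ (σ : G) (x : X), t (σ • x) = ρ σ (t x)
  odd : ∀ x : X, t (c • x) = -t x

/-- The linear combination with the given coefficients. -/
def FF (t : X → M) (u : X → ℚ) : M := ∑ x, u x • t x

/-- The linear combination with the given integral coefficients. -/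
def FZ (t : X → M) (v : X → ℤ) : M := FF t fun x => (v x : ℚ)

/-- The group acts on all values by signs. -/
def EigT (ρ : G →* (M →ₗ[ℚ] M)) (t : X → M) : Prop := ∀ x, IsEigM ρ (t x)

variable {c : G} {ρ : G →* (M →ₗ[ℚ] M)} {t : X → M} (ht : IsEqv c ρ t)

include ht in
theorem FF_smul (u : X → ℚ) (σ : G) : FF t (fun x => u (σ • x)) = ρ σ⁻¹ (FF t u) := by
  unfold FF
  rw [map_sum, ← Equiv.sum_comp (MulAction.toPerm σ) fun x => ρ σ⁻¹ (u x • t x)]
  refine Finset.sum_congr rfl fun x _ => ?_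
  rw [MulAction.toPerm_apply, map_smul, ht.equiv, rho_inv_self]

include ht in
theorem FZ_smul (v : X → ℤ) (σ : G) : FZ t (fun x => v (σ • x)) = ρ σ⁻¹ (FZ t v) :=
  FF_smul ht (fun x => (v x : ℚ)) σ

theorem FF_sub (u w : X → ℚ) : FF t (fun x => u x - w x) = FF t u - FF t w := by
  unfold FF
  rw [← Finset.sum_sub_distrib]
  exact Finset.sum_congr rfl fun x _ => sub_smul _ _ _

theorem FZ_sub (v w : X → ℤ) : FZ t (fun x => v x - w x) = FZ t v - FZ t w := by
  unfold FZ
  rw [← FF_sub]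
  congr 1
  funext x
  push_cast
  rfl

theorem FF_neg (u : X → ℚ) : FF t (fun x => -u x) = -FF t u := by
  unfold FF
  rw [← Finset.sum_neg_distrib]
  exact Finset.sum_congr rfl fun x _ => neg_smul _ _

theorem FZ_neg (v : X → ℤ) : FZ t (fun x => -v x) = -FZ t v := by
  unfold FZ
  rw [← FF_neg]
  exact congrArg (FF t) (funext fun x => Int.cast_neg _)

include ht in
theorem eig_of_sgn {v : X → ℤ} (h : SgnF G v) : IsEigM ρ (FZ t v) := by
  intro σ
  have h1 := FZ_smul ht v σ⁻¹
  rw [inv_inv] at h1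
  rw [← h1]
  rcases h σ⁻¹ with h2 | h2
  · left
    congr 1
    funext x
    exact h2 x
  · right
    rw [← FZ_neg]
    congr 1
    funext x
    exact h2 x

include ht in
theorem EigT.val (h : EigT ρ t) (htrans : ∀ x y : X, ∃ g : G, g • x = y) (x y : X) :
    t y = t x ∨ t y = -t x := by
  obtain ⟨σ, rfl⟩ := htrans x y
  rw [ht.equiv]
  exact h x σ

include ht in
theorem eig_of_eigT (h : EigT ρ t) (htrans : ∀ x y : X, ∃ g : G, g • x = y) (u : X → ℚ) :
    IsEigM ρ (FF t u) := by
  rcases isEmpty_or_nonempty X with he | ⟨⟨x₀⟩⟩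
  · have h1 : FF t u = 0 := by
      unfold FF
      exact Finset.sum_eq_zero fun x _ => he.elim x
    rw [h1]
    exact eigM_zero
  · have h1 : ∀ x, ∃ a : ℚ, t x = a • t x₀ := by
      intro x
      rcases h.val ht htrans x₀ x with h2 | h2
      · exact ⟨1, by rw [h2, one_smul]⟩
      · exact ⟨-1, by rw [h2, neg_one_smul]⟩
    choose a ha using h1
    have h2 : FF t u = (∑ x, u x * a x) • t x₀ := by
      unfold FF
      rw [Finset.sum_smul]
      refine Finset.sum_congr rfl fun x _ => ?_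
      rw [ha x, smul_smul]
    rw [h2]
    exact eigM_smul (h x₀) _

end map

end

end Pool.Agent.Q43.HQ
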