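import Pool.Agent.Q43.HQ.Sys
import Pool.Agent.Q43.HQ.Cond
import Pool.Agent.Q43.HP.Cases

/-!
# The types of the fields
-/

set_option autoImplicit false
set_option linter.unusedSectionVars false
set_option linter.unusedVariables false

namespace Pool.Agent.Q43.HQ

open NumberField Pool.Agent.H204R3.CM Pool.Agent.W547.KB Pool.Agent.W547.LD Pool.Agent.W547.HR
  Pool.Agent.W495.TA Pool.Agent.W495.TB Pool.Agent.W495.TC Pool.Agent.TH117.F5
  Pool.Agent.TH117.PO Pool.Agent.TH117.BL Module Pool.Agent.W976.TA Equiv Pool.Agent.Q43.HN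
  Pool.Agent.Q43.HP
open scoped TensorProduct

noncomputable section

section type

variable (K : Type) [Field K] [NumberField K] [IsCMField K]

theorem exists_imag : ∃ t : K, ∀ φ : K →+* ℂ, (φ t).im ≠ 0 ∧
    ComplexEmbedding.conjugate φ t = -φ t := by
  obtain ⟨x, hx⟩ : ∃ x : K, IsCMField.complexConj K x ≠ x := by
    by_contra hcon
    push Not at hcon
    exact IsCMField.complexConj_ne_one K (AlgEquiv.ext hcon)
  refine ⟨x - IsCMField.complexConj K x, fun φ => ?_⟩
  have h1 : ComplexEmbedding.conjugate φ (x - IsCMField.complexConj K x) =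
      -φ (x - IsCMField.complexConj K x) := by
    rw [ComplexEmbedding.conjugate_coe_eq, ← IsCMField.complexEmbedding_complexConj, map_sub,
      IsCMField.complexConj_apply_apply, ← map_neg, neg_sub]
  refine ⟨fun h2 => ?_, h1⟩
  rw [ComplexEmbedding.conjugate_coe_eq] at h1
  have h3 : (φ (x - IsCMField.complexConj K x)).re = 0 := by
    have h4 := congrArg Complex.re h1
    rw [Complex.conj_re, Complex.neg_re] at h4
    linarith
  have h4 : φ (x - IsCMField.complexConj K x) = 0 := Complex.ext h3 h2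
  rw [map_eq_zero] at h4
  exact hx (sub_eq_zero.1 h4).symm

theorem exists_cmType : ∃ Φ : Set (K →+* ℂ), IsCMType Φ := by
  obtain ⟨t, ht⟩ := exists_imag K
  refine ⟨{φ | 0 < (φ t).im}, fun φ => ?_⟩
  obtain ⟨h1, h2⟩ := ht φ
  change 0 < (φ t).im ↔ ¬ 0 < (ComplexEmbedding.conjugate φ t).im
  rw [h2, Complex.neg_im]
  constructor
  · intro h
    linarith
  · intro h
    rcases lt_or_gt_of_ne h1 with h3 | h3
    · exact absurd (by linarith) h
    · exact h3

/-- The field with some CM type. -/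
@[reducible] def pr : CMPair where
  E := K
  Φ := (exists_cmType K).choose
  isCMType := (exists_cmType K).choose_spec

end type

section typed

variable {L : Type} [Field L] [NumberField L] [IsCMField L] [IsGalois ℚ L] {j : L →+* ℂ}

/-- Cycles in odd prime dimension. -/
theorem prime_dataA {A : CMPair} (hA : BigA A j) {g : ℕ} (hg : g.Prime) (hg2 : g ≠ 2)
    (hdim : finrank ℚ A.E = 2 * g) :
    ∃ (τ : L ≃ₐ[ℚ] L) (φ₀ : A.E →+* L), Odd (orderOf τ) ∧ τ ^ g • φ₀ = φ₀ ∧
      Function.Bijective (cyc (cc L) τ g φ₀) := by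
  have hcard : Nat.card (A.E →+* L) = 2 * g := (Pool.Agent.W547.LN.card_hom A j hA).trans hdim
  have hfin : Finite (A.E →+* L) := Nat.finite_of_card_ne_zero (by
    have := hg.pos
    omega)
  have hset := setting j A
  obtain ⟨τ, φ₀, ⟨b, hb⟩, h1, -, h2⟩ := exists_cycle_pow (X := A.E →+* L) (cc L)
    hset.comm hset.sq hset.ne hset.trans hg hg2 hcard
  refine ⟨τ, φ₀, ?_, h1, h2⟩
  rw [hb]
  exact (hg.odd_of_ne_two hg2).pow

/-- Quartic fields without imaginary quadratic subfields. -/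
theorem four_dataA {A : CMPair} (hA : BigA A j) (h4 : finrank ℚ A.E = 4)
    (hq : ∀ (t : A.E) (d : ℕ), 0 < d → t ^ 2 ≠ -(d : A.E)) :
    ∃ (τ : L ≃ₐ[ℚ] L) (φ₀ : A.E →+* L), τ • τ • φ₀ = cc L • φ₀ ∧
      Function.Bijective (cyc (cc L) τ 2 φ₀) := by
  classical
  let X := A.E →+* L
  have hcard : Nat.card X = 4 := (Pool.Agent.W547.LN.card_hom A j hA).trans h4
  have hfin : Finite X := Nat.finite_of_card_ne_zero (by omega)
  have hset := setting j A
  have hcc : ∀ φ : X, cc L • cc L • φ = φ := fun φ => by rw [← mul_smul, hset.sq, one_smul]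
  have hcτ : ∀ (σ : L ≃ₐ[ℚ] L) (φ : X), σ • cc L • φ = cc L • σ • φ := fun σ φ => by
    rw [← mul_smul, ← mul_smul, hset.comm]
  obtain ⟨φ₀⟩ : Nonempty X := by
    by_contra h
    rw [not_nonempty_iff] at h
    rw [Nat.card_of_isEmpty] at hcard
    omega
  have hall : ∀ φ₁ : X, φ₁ ≠ φ₀ → φ₁ ≠ cc L • φ₀ → ∀ φ : X, φ = φ₀ ∨ φ = cc L • φ₀ ∨ φ = φ₁ ∨
      φ = cc L • φ₁ := fun φ₁ h1 h2 φ =>
    four_points (c := fun φ : X => cc L • φ) hcc hset.ne hcard h1 h2 φ
  by_cases hex : ∃ τ : L ≃ₐ[ℚ] L, τ • τ • φ₀ = cc L • φ₀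
  · obtain ⟨τ, hτ⟩ := hex
    have h1 : τ • φ₀ ≠ φ₀ := fun h => hset.ne φ₀ (by rw [← hτ, h, h])
    have h2 : τ • φ₀ ≠ cc L • φ₀ := fun h => hset.ne φ₀ (by
      rw [← hτ, h, hcτ, h, hcc])
    have hsurj : Function.Surjective (cyc (cc L) τ 2 φ₀) := by
      intro φ
      rcases hall _ h1 h2 φ with h | h | h | h
      · refine ⟨(0, false), ?_⟩
        change τ ^ 0 • φ₀ = φ
        rw [pow_zero, one_smul, h]
      · refine ⟨(0, true), ?_⟩
        change cc L • τ ^ 0 • φ₀ = φ
        rw [pow_zero, one_smul, h]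
      · refine ⟨(1, false), ?_⟩
        change τ ^ 1 • φ₀ = φ
        rw [pow_one, h]
      · refine ⟨(1, true), ?_⟩
        change cc L • τ ^ 1 • φ₀ = φ
        rw [pow_one, h]
    exact ⟨τ, φ₀, hτ, hsurj.bijective_of_nat_card_le (by
      rw [hcard, Nat.card_eq_fintype_card, Fintype.card_prod, Fintype.card_fin,
        Fintype.card_bool])⟩
  · exfalso
    push Not at hex
    obtain ⟨φ₁, h1, h2⟩ := exists_other (j := j) hA (by omega) φ₀
    have key1 : ∀ τ : L ≃ₐ[ℚ] L, τ • φ₀ = φ₁ → τ • φ₁ = φ₀ := by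
      intro τ hτ
      rcases hall φ₁ h1 h2 (τ • φ₁) with h | h | h | h
      · exact h
      · exact absurd (by rw [hτ, h]) (hex τ)
      · exact absurd (MulAction.injective τ (h.trans hτ.symm)) h1
      · rw [← hτ, ← hcτ] at h
        exact absurd (MulAction.injective τ (by rw [hτ] at h; exact h)) h2
    obtain ⟨σ, hσ⟩ := hset.trans φ₀ φ₁
    have key2 : ∀ g : L ≃ₐ[ℚ] L, g • φ₀ = φ₀ → g • φ₁ = φ₁ := by
      intro g hg
      rcases hall φ₁ h1 h2 (g • φ₁) with h | h | h | h
      · exact absurd (MulAction.injective g (h.trans hg.symm)) h1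
      · have h3 : g • φ₁ = g • cc L • φ₀ := by rw [h, hcτ, hg]
        exact absurd (MulAction.injective g h3) h2
      · exact h
      · exfalso
        have h3 := key1 (σ * g) (by rw [mul_smul, hg, hσ])
        rw [mul_smul, h, hcτ, key1 σ hσ] at h3
        exact hset.ne φ₀ h3
    have h1c : cc L • φ₁ ≠ φ₀ := fun h => h2 (by rw [← h, hcc])
    have h1c' : cc L • φ₁ ≠ φ₁ := hset.ne φ₁
    let s : X → ℤ := fun φ => if φ = φ₀ ∨ φ = φ₁ then 1 else -1
    have s0 : s φ₀ = 1 := if_pos (Or.inl rfl)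
    have s1 : s φ₁ = 1 := if_pos (Or.inr rfl)
    have s2 : s (cc L • φ₀) = -1 := if_neg fun h => h.elim (hset.ne φ₀) h2.symm
    have s3 : s (cc L • φ₁) = -1 := if_neg fun h => h.elim h1c h1c'
    have hform : ∀ (g : L ≃ₐ[ℚ] L) (e : ℤ), s (g • φ₀) = e → s (g • φ₁) = e →
        s (g • cc L • φ₀) = -e → s (g • cc L • φ₁) = -e → ∀ φ, s (g • φ) = e * s φ := by
      intro g e e0 e1 e2 e3 φ
      rcases hall φ₁ h1 h2 φ with rfl | rfl | rfl | rfl
      · rw [e0, s0, mul_one]
      · rw [e2, s2, mul_neg_one]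
      · rw [e1, s1, mul_one]
      · rw [e3, s3, mul_neg_one]
    have hodd : OddF (cc L) s := by
      intro φ
      rw [hform (cc L) (-1) s2 s3 (by rw [hcc, s0, neg_neg]) (by rw [hcc, s1, neg_neg]) φ,
        neg_one_mul]
    have hsgn : SgnF (L ≃ₐ[ℚ] L) s := by
      intro g
      have hc0 : ∀ φ : X, s (g • cc L • φ) = -s (g • φ) := fun φ => by rw [hcτ, hodd]
      rcases hall φ₁ h1 h2 (g • φ₀) with h | h | h | h
      · left
        intro φ
        rw [hform g 1 (by rw [h, s0]) (by rw [key2 g h, s1]) (by rw [hc0, h, s0])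
          (by rw [hc0, key2 g h, s1]), one_mul]
      · right
        have h5 : g • φ₁ = cc L • φ₁ := by
          have h3 : (cc L * g) • φ₀ = φ₀ := by rw [mul_smul, h, hcc]
          have h6 := key2 _ h3
          rw [mul_smul] at h6
          rw [← h6, hcc, h6]
        intro φ
        rw [hform g (-1) (by rw [h, s2]) (by rw [h5, s3]) (by rw [hc0, h, s2])
          (by rw [hc0, h5, s3]), neg_one_mul]
      · left
        intro φ
        rw [hform g 1 (by rw [h, s1]) (by rw [key1 g h, s0]) (by rw [hc0, h, s1])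
          (by rw [hc0, key1 g h, s0]), one_mul]
      · right
        have h5 : g • φ₁ = cc L • φ₀ := by
          have h3 : (cc L * g) • φ₀ = φ₁ := by rw [mul_smul, h, hcc]
          have h6 := key1 _ h3
          rw [mul_smul] at h6
          rw [← h6, hcc]
        intro φ
        rw [hform g (-1) (by rw [h, s3]) (by rw [h5, s2]) (by rw [hc0, h, s3])
          (by rw [hc0, h5, s2]), neg_one_mul]
    obtain ⟨d, θ, t, hd, -, ht, -⟩ := exists_quad j (A := A) (s := s) (fun φ => by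
      change (if φ = φ₀ ∨ φ = φ₁ then (1 : ℤ) else -1) = 1 ∨
        (if φ = φ₀ ∨ φ = φ₁ then (1 : ℤ) else -1) = -1
      split_ifs
      · exact Or.inl rfl
      · exact Or.inr rfl) hodd hsgn φ₀ s0
    exact hq t d hd ht

/-- The properties of the types. -/
theorem typed_data {A : CMPair} (hA : BigA A j) [Fintype (A.E →+* L)] (h2 : 2 < finrank ℚ A.E)
    (h : IsTyped A.E) : Rigid (cc L) (A.E →+* L) ∧
      ∀ (M : Type) [AddCommGroup M] [Module ℚ M] (ρ : (L ≃ₐ[ℚ] L) →* (M →ₗ[ℚ] M))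
        (t : (A.E →+* L) → M), IsEqv (cc L) ρ t → IndepM (cc L) ρ t := by
  have hset := setting j A
  rcases h with h | ⟨h4, hq⟩ | ⟨g, hg, hg2, hdim⟩ | ⟨h4, h⟩
  · omega
  · obtain ⟨τ, φ₀, h1, h3⟩ := four_dataA hA h4 hq
    exact ⟨rigid_four hset.comm h1 h3 hset.trans, fun M _ _ ρ t ht =>
      indepM_four hset.comm hset.trans ht h1 h3⟩
  · obtain ⟨τ, φ₀, h1, h3, h5⟩ := prime_dataA hA hg hg2 hdim
    exact ⟨rigid_prime hset.comm h5 hset.sq hset.trans hg hg2 h3 h1, fun M _ _ ρ t ht =>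
      indepM_prime hset.comm hset.trans ht hg h3 h1 h5⟩
  · obtain ⟨s, hs⟩ := isIrr_of (j := j) hA h
    exact ⟨rigid_irr hset.comm hset.sq hset.ne hset.trans (hasThree_of hA h4) hs,
      fun M _ _ ρ t ht => indepM_irr hset.comm hset.sq hset.ne hset.trans ht (hasThree_of hA h4) hs⟩

end typed

end

end Pool.Agent.Q43.HQ
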