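import Mathlib

/-!
# Linear relations between the images of a vector under an operator of prime order
-/

set_option autoImplicit false

namespace Pool.Agent.Q43.HQ

open Polynomial

variable {M : Type} [AddCommGroup M] [Module ℚ M]

theorem const_or_mod (τ : Module.End ℚ M) (t : M) {g : ℕ} (hg : g.Prime) (hτ : (τ ^ g) t = t)
    (a : ℕ → ℚ) (h : τ (∑ k ∈ Finset.range g, a k • (τ ^ k) t) =
      ∑ k ∈ Finset.range g, a k • (τ ^ k) t) : τ t = t ∨ ∀ k < g, a k = a 0 := by
  classical
  have _ : Fact g.Prime := ⟨hg⟩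
  set P : ℚ[X] := ∑ k ∈ Finset.range g, C (a k) * X ^ k with hP
  have hPt : (aeval τ P) t = ∑ k ∈ Finset.range g, a k • (τ ^ k) t := by
    rw [hP, map_sum, LinearMap.sum_apply]
    refine Finset.sum_congr rfl fun k _ => ?_
    rw [map_mul, aeval_C, map_pow, aeval_X, Module.End.mul_apply]
    rfl
  have hcoeff : ∀ k < g, P.coeff k = a k := by
    intro k hk
    rw [hP, finsetSum_coeff]
    simp only [coeff_C_mul, coeff_X_pow]
    rw [Finset.sum_eq_single k]
    · rw [if_pos rfl, mul_one]
    · intro l _ hl
      rw [if_neg (Ne.symm hl), mul_zero]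
    · intro h1
      exact absurd (Finset.mem_range.2 hk) h1
  have hdeg : P.natDegree < g := by
    rw [hP]
    refine lt_of_le_of_lt (natDegree_sum_le_of_forall_le (n := g - 1) _ _ fun k hk => ?_) ?_
    · refine (natDegree_C_mul_X_pow_le _ _).trans ?_
      have := Finset.mem_range.1 hk
      omega
    · have := hg.pos
      omega
  have hirr : Irreducible (cyclotomic g ℚ) := cyclotomic.irreducible_rat hg.pos
  by_cases hdvd : cyclotomic g ℚ ∣ P
  · right
    obtain ⟨Q, hQ⟩ := hdvd
    have hdc : (cyclotomic g ℚ).natDegree = g - 1 := by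
      rw [natDegree_cyclotomic, Nat.totient_prime hg]
    by_cases hP0 : P = 0
    · intro k hk
      rw [← hcoeff k hk, ← hcoeff 0 hg.pos, hP0, coeff_zero, coeff_zero]
    · have hQ0 : Q ≠ 0 := by
        rintro rfl
        rw [mul_zero] at hQ
        exact hP0 hQ
      have hQd : Q.natDegree = 0 := by
        have h1 := natDegree_mul (cyclotomic_ne_zero g ℚ) hQ0
        rw [← hQ, hdc] at h1
        omega
      obtain ⟨b, hb⟩ : ∃ b, Q = C b := ⟨_, eq_C_of_natDegree_eq_zero hQd⟩
      have h1 : ∀ k < g, a k = b := by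
        intro k hk
        rw [← hcoeff k hk, hQ, hb, cyclotomic_prime, mul_comm, coeff_C_mul, finsetSum_coeff]
        simp only [coeff_X_pow]
        rw [Finset.sum_eq_single k]
        · rw [if_pos rfl, mul_one]
        · intro l _ hl
          rw [if_neg (Ne.symm hl)]
        · intro h2
          exact absurd (Finset.mem_range.2 hk) h2
      intro k hk
      rw [h1 k hk, h1 0 hg.pos]
  · left
    have hcop : IsCoprime (cyclotomic g ℚ) P := (hirr.coprime_iff_not_dvd).2 hdvd
    obtain ⟨U, V, hUV⟩ := hcop
    have h1 : (X - 1 : ℚ[X]) = U * (X ^ g - 1) + V * ((X - 1) * P) := by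
      rw [← cyclotomic_prime_mul_X_sub_one ℚ g]
      linear_combination (-(X - 1 : ℚ[X])) * hUV
    have h2 : (aeval τ (X - 1 : ℚ[X])) t = τ t - t := by
      rw [map_sub, aeval_X, map_one, LinearMap.sub_apply]
      rfl
    have h3 : (aeval τ (X ^ g - 1 : ℚ[X])) t = 0 := by
      rw [map_sub, map_pow, aeval_X, map_one, LinearMap.sub_apply, hτ]
      exact sub_self t
    have h4 : (aeval τ ((X - 1) * P : ℚ[X])) t = 0 := by
      rw [map_mul, Module.End.mul_apply, hPt, map_sub, aeval_X, map_one, LinearMap.sub_apply, h]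
      exact sub_self _
    have h5 : τ t - t = 0 := by
      rw [← h2, h1, map_add, LinearMap.add_apply, map_mul, map_mul, Module.End.mul_apply,
        Module.End.mul_apply, h3, h4, map_zero, map_zero, add_zero]
    exact sub_eq_zero.1 h5

end Pool.Agent.Q43.HQ
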