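import Pool.Agent.Q43.HQ.Eqv
import Pool.Agent.Q43.HQ.Poly

/-!
# Combinations of the values of an equivariant map on which the group acts by signs
-/

set_option autoImplicit false
set_option linter.unusedSectionVars false
set_option linter.unusedVariables false

namespace Pool.Agent.Q43.HQ

open Pool.Agent.Q43.HP
open Pool.Agent.Q43.HN (cyc)

noncomputable section

variable {G : Type} [Group G] {M : Type} [AddCommGroup M] [Module ℚ M]
  {X : Type} [MulAction G X] [Fintype X] {c : G} {ρ : G →* (M →ₗ[ℚ] M)} {t : X → M}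

/-- If a combination of the values of the map with odd coefficients is in the span of the vectors on
which the group acts by signs then the group acts by signs on the values or on the coefficients. -/
def IndepM (c : G) (ρ : G →* (M →ₗ[ℚ] M)) (t : X → M) : Prop :=
  ∀ v : X → ℤ, OddF c v → FZ t v ∈ EigSpan ρ → EigT ρ t ∨ SgnF G v

variable (hcomm : ∀ h, c * h = h * c) (hsq : c * c = 1) (hne : ∀ x : X, c • x ≠ x)
  (htrans : ∀ x y : X, ∃ h : G, h • x = y) (ht : IsEqv c ρ t)

include ht in
theorem FZ_good {v : X → ℤ} (hv : FZ t v ∈ EigSpan ρ) {κ : G}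
    (hκ : ∀ m : M, IsEigM ρ m → ρ κ⁻¹ m = m) (σ : G) :
    FZ t (fun x => v (σ • x) - v (σ • κ • x)) = 0 := by
  have h1 : (fun x => v (σ • x) - v (σ • κ • x)) =
      fun x => (fun x => v (σ • x)) x - (fun x => v ((σ * κ) • x)) x := by
    funext x
    change v (σ • x) - v (σ • κ • x) = v (σ • x) - v ((σ * κ) • x)
    rw [mul_smul]
  rw [h1, FZ_sub, FZ_smul ht, FZ_smul ht, mul_inv_rev, rho_mul,
    fix_eigSpan hκ (rho_eigSpan hv σ⁻¹), sub_self]

include hcomm hsq hne htrans ht in
theorem indepM_irr (h3 : HasThree c X) {s : X → ℚ} (hI : IsIrr c s) : IndepM c ρ t := by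
  classical
  intro v hv hE
  by_cases hEig : EigT ρ t
  · exact Or.inl hEig
  right
  -- relations
  have stepA : ∀ w : X → ℤ, OddF c w → FZ t w = 0 → SgnF G w := by
    intro w hw hrel
    by_cases hns : ∀ a : ℚ, (fun x => (w x : ℚ)) ≠ fun x => a * s x
    · exfalso
      apply hEig
      have hwq : ∀ x, (w (c • x) : ℚ) = -(w x : ℚ) := fun x => by
        rw [hw]
        push_cast
        rfl
      have hall : ∀ u : X → ℚ, (∀ x, u (c • x) = -u x) → ∑ x, s x * u x = 0 → FF t u = 0 := by
        intro u hu hus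
        let D : (X → ℚ) →ₗ[ℚ] M :=
          { toFun := fun u => FF t u
            map_add' := fun u u' => by
              unfold FF
              rw [← Finset.sum_add_distrib]
              refine Finset.sum_congr rfl fun x _ => ?_
              exact add_smul _ _ _
            map_smul' := fun a u => by
              unfold FF
              rw [RingHom.id_apply, Finset.smul_sum]
              refine Finset.sum_congr rfl fun x _ => ?_
              exact mul_smul a (u x) (t x) }
        have h5 : Submodule.span ℚ (Set.range fun σ : G => fun x => (w (σ • x) : ℚ)) ≤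
            LinearMap.ker D := by
          refine Submodule.span_le.2 ?_
          rintro _ ⟨σ, rfl⟩
          refine LinearMap.mem_ker.2 ?_
          change FF t (fun x => ((w (σ • x) : ℤ) : ℚ)) = 0
          have h6 := FZ_smul ht w σ
          rw [hrel, map_zero] at h6
          exact h6
        exact LinearMap.mem_ker.1 (h5 (IsIrr.irr hcomm hsq hne htrans h3 hI (fun x => (w x : ℚ)) u
          hwq hu hns hus))
      have hcc : ∀ y : X, c • c • y = y := fun y => by rw [← mul_smul, hsq, one_smul]
      have hdel : ∀ (e : X → ℚ) (x : X), (∀ y, e (c • y) = -e y) → e x = 1 →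
          (∀ y, y ≠ x → y ≠ c • x → e y = 0) → FF t e = (2 : ℚ) • t x := by
        intro e x h1 h2 h4
        unfold FF
        rw [← Finset.sum_subset (Finset.subset_univ {x, c • x}) fun y _ hy => by
          rw [Finset.mem_insert, Finset.mem_singleton, not_or] at hy
          rw [h4 y hy.1 hy.2, zero_smul], Finset.sum_pair (hne x).symm, h1, h2, ht.odd,
          neg_smul_neg, two_smul, one_smul]
      have hsub : ∀ (a b : ℚ) (e f : X → ℚ), FF t (fun x => a * e x - b * f x) =
          a • FF t e - b • FF t f := by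
        intro a b e f
        rw [FF_sub]
        unfold FF
        rw [Finset.smul_sum, Finset.smul_sum]
        congr 1
        · exact Finset.sum_congr rfl fun x _ => mul_smul _ _ _
        · exact Finset.sum_congr rfl fun x _ => mul_smul _ _ _
      have hval : ∀ x y : X, t y = t x ∨ t y = -t x := by
        intro x y
        obtain ⟨e, e1, e2, e3, e4⟩ := exists_delta hsq hne x
        obtain ⟨f, f1, f2, f3, f4⟩ := exists_delta hsq hne y
        by_cases hs0 : s x = 0
        · have hz := s_zero htrans hI hs0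
          left
          have h5 := hall e e1 (Finset.sum_eq_zero fun x _ => by rw [hz, zero_mul])
          have h6 := hall f f1 (Finset.sum_eq_zero fun x _ => by rw [hz, zero_mul])
          rw [hdel e x e1 e2 e3] at h5
          rw [hdel f y f1 f2 f3] at h6
          rw [(smul_eq_zero.1 h5).resolve_left two_ne_zero,
            (smul_eq_zero.1 h6).resolve_left two_ne_zero]
        · have h6 := hall (fun z => s y * e z - s x * f z) (fun z => by
            change s y * e (c • z) - s x * f (c • z) = -(s y * e z - s x * f z)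
            rw [e1, f1]
            ring) (by
            have h4 : ∀ z, s z * (s y * e z - s x * f z) =
                s y * (e z * s z) - s x * (f z * s z) := by
              intro z
              ring
            rw [Finset.sum_congr rfl fun z _ => h4 z, Finset.sum_sub_distrib, ← Finset.mul_sum,
              ← Finset.mul_sum, e4 s hI.odd, f4 s hI.odd]
            ring)
          rw [hsub, hdel e x e1 e2 e3, hdel f y f1 f2 f3, smul_comm (s y), smul_comm (s x),
            ← smul_sub] at h6
          have h7 : s y • t x = s x • t y :=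
            sub_eq_zero.1 ((smul_eq_zero.1 h6).resolve_left two_ne_zero)
          obtain ⟨σ, hσ⟩ := htrans x y
          have h8 : s y = s x ∨ s y = -s x := by
            rw [← hσ]
            exact (hI.sgn σ).imp (fun h => h x) fun h => h x
          rcases h8 with h8 | h8
          · left
            rw [h8, ← sub_eq_zero, ← smul_sub] at h7
            exact (sub_eq_zero.1 ((smul_eq_zero.1 h7).resolve_left hs0)).symm
          · right
            rw [h8, neg_smul, ← smul_neg, ← sub_eq_zero, ← smul_sub] at h7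
            exact (sub_eq_zero.1 ((smul_eq_zero.1 h7).resolve_left hs0)).symm
      intro x σ
      rw [← ht.equiv]
      exact hval x (σ • x)
    · push Not at hns
      obtain ⟨a, ha⟩ := hns
      have h1 : ∀ x, (w x : ℚ) = a * s x := fun x => congrFun ha x
      intro σ
      refine (hI.sgn σ).imp (fun h2 x => ?_) fun h2 x => ?_
      · have h4 : ((w (σ • x) : ℤ) : ℚ) = (w x : ℚ) := by rw [h1, h1, h2]
        exact_mod_cast h4
      · have h4 : ((w (σ • x) : ℤ) : ℚ) = ((-w x : ℤ) : ℚ) := by
          push_cast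
          rw [h1, h1, h2]
          ring
        exact_mod_cast h4
  by_contra hnS
  have hRig : Rigid c X := rigid_irr hcomm hsq hne htrans h3 hI
  have stepB : ∀ κ : G, (∀ m : M, IsEigM ρ m → ρ κ⁻¹ m = m) → ∀ x : X, κ • x = x := by
    intro κ hκ
    refine hRig v hv hnS κ fun σ => ?_
    exact stepA _ (hv.sub hcomm σ κ) (FZ_good ht hE hκ σ)
  have _ : Nonempty X := by
    by_contra hcon
    rw [not_nonempty_iff] at hcon
    exact hnS fun σ => Or.inl fun x => hcon.elim x
  refine not_elem hcomm hsq hne htrans h3 hI (v := fun x => (v x : ℚ))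
    (fun x => by
      rw [hv]
      push_cast
      rfl) (fun a ha => hnS fun σ => ?_) (fun a b x => ?_) fun a x => ?_
  · have h1 : ∀ x, (v x : ℚ) = a * s x := fun x => congrFun ha x
    refine (hI.sgn σ).imp (fun h2 x => ?_) fun h2 x => ?_
    · have h4 : ((v (σ • x) : ℤ) : ℚ) = (v x : ℚ) := by rw [h1, h1, h2]
      exact_mod_cast h4
    · have h4 : ((v (σ • x) : ℤ) : ℚ) = ((-v x : ℤ) : ℚ) := by
        push_cast
        rw [h1, h1, h2]
        ring
      exact_mod_cast h4
  · have h1 := stepB (a * b * a⁻¹ * b⁻¹) (fun m hm => rho_inv_eq (rho_comm hm a b)) (b • a • x)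
    rw [← h1, ← mul_smul, ← mul_smul, ← mul_smul]
    congr 1
    group
  · have h1 := stepB (a * a) (fun m hm => rho_inv_eq (rho_sq hm a)) x
    rwa [mul_smul] at h1

include hcomm htrans ht in
/-- Two pairs of points. -/
theorem indepM_four {τ : G} {x₀ : X} (hτ : τ • τ • x₀ = c • x₀)
    (hbij : Function.Bijective (cyc c τ 2 x₀)) : IndepM c ρ t := by
  classical
  intro v hv hE
  have hτ2 : ∀ x : X, τ • τ • x = c • x := by
    intro x
    obtain ⟨⟨k, b⟩, rfl⟩ := hbij.2 x
    have h1 : τ • τ • τ ^ (k : ℕ) • x₀ = c • τ ^ (k : ℕ) • x₀ := by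
      rw [← mul_smul τ (τ ^ (k : ℕ)), ← pow_succ', pow_succ, mul_smul (τ ^ (k : ℕ)) τ,
        ← mul_smul τ (τ ^ (k : ℕ)), ← pow_succ', pow_succ, mul_smul (τ ^ (k : ℕ)) τ, hτ,
        smul_c hcomm]
    rcases b with _ | _
    · exact h1
    · change τ • τ • c • τ ^ (k : ℕ) • x₀ = c • c • τ ^ (k : ℕ) • x₀
      rw [smul_c hcomm, smul_c hcomm, h1]
  have h1 : ∀ σ : G, FZ t (fun x => v (σ • x)) = 0 := by
    intro σ
    have h2 := FZ_good ht hE (κ := τ * τ) (fun m hm => rho_inv_eq (rho_sq hm τ)) σ
    have h3 : (fun x => v (σ • x) - v (σ • (τ * τ) • x)) =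
        fun x => (fun x => v (σ • x)) x - (fun x => -v (σ • x)) x := by
      funext x
      rw [mul_smul, hτ2, smul_c hcomm, hv]
    rw [h3, FZ_sub, FZ_neg, sub_neg_eq_add, ← two_smul ℚ] at h2
    exact (smul_eq_zero.1 h2).resolve_left two_ne_zero
  have hform : ∀ w : X → ℤ, OddF c w → FZ t w =
      (2 : ℚ) • ((w x₀ : ℚ) • t x₀ + (w (τ • x₀) : ℚ) • t (τ • x₀)) := by
    intro w hw
    unfold FZ FF
    rw [← Equiv.sum_comp (Equiv.ofBijective _ hbij) fun x => (w x : ℚ) • t x,
      Fintype.sum_prod_type]
    rw [Fin.sum_univ_two]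
    simp only [Equiv.ofBijective_apply, Fintype.sum_bool]
    have e1 : cyc c τ 2 x₀ (0, true) = c • x₀ := by
      change c • τ ^ 0 • x₀ = _
      rw [pow_zero, one_smul]
    have e2 : cyc c τ 2 x₀ (0, false) = x₀ := by
      change τ ^ 0 • x₀ = _
      rw [pow_zero, one_smul]
    have e3 : cyc c τ 2 x₀ (1, true) = c • τ • x₀ := by
      change c • τ ^ 1 • x₀ = _
      rw [pow_one]
    have e4 : cyc c τ 2 x₀ (1, false) = τ • x₀ := by
      change τ ^ 1 • x₀ = _
      rw [pow_one]
    rw [e1, e2, e3, e4, hw, hw, ht.odd, ht.odd]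
    push_cast
    rw [neg_smul_neg, neg_smul_neg, two_smul]
    abel
  have h2 := h1 1
  have h3 := h1 τ
  simp only [one_smul] at h2
  rw [hform v hv] at h2
  rw [hform (fun x => v (τ • x)) (hv.comp hcomm τ)] at h3
  have h4 := (smul_eq_zero.1 h2).resolve_left two_ne_zero
  have h5 := (smul_eq_zero.1 h3).resolve_left two_ne_zero
  rw [hτ2, hv] at h5
  push_cast at h5
  set a : ℚ := (v x₀ : ℚ) with ha
  set b : ℚ := (v (τ • x₀) : ℚ) with hb
  have h6 : (a * a + b * b) • t x₀ = 0 := by
    linear_combination (norm := module) a • h4 + b • h5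
  rcases smul_eq_zero.1 h6 with h7 | h7
  · right
    have ha0 : v x₀ = 0 := by
      have h8 : a = 0 := by nlinarith [mul_self_nonneg a, mul_self_nonneg b]
      exact_mod_cast ha.symm.trans h8
    have hb0 : v (τ • x₀) = 0 := by
      have h8 : b = 0 := by nlinarith [mul_self_nonneg a, mul_self_nonneg b]
      exact_mod_cast hb.symm.trans h8
    refine sgnF_zero fun x => ?_
    obtain ⟨⟨k, bb⟩, rfl⟩ := hbij.2 x
    have h9 : v (τ ^ (k : ℕ) • x₀) = 0 := by
      fin_cases k
      · change v (τ ^ 0 • x₀) = 0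
        rw [pow_zero, one_smul, ha0]
      · change v (τ ^ 1 • x₀) = 0
        rw [pow_one, hb0]
    rcases bb with _ | _
    · exact h9
    · change v (c • τ ^ (k : ℕ) • x₀) = 0
      rw [hv, h9, neg_zero]
  · left
    intro x
    obtain ⟨σ, rfl⟩ := htrans x₀ x
    rw [ht.equiv, h7, map_zero]
    exact eigM_zero

include hcomm htrans ht in
/-- Twice an odd prime number of points. -/
theorem indepM_prime {τ : G} {x₀ : X} {g : ℕ} (hg : g.Prime) (hτg : τ ^ g • x₀ = x₀)
    (hodd : Odd (orderOf τ)) (hbij : Function.Bijective (cyc c τ g x₀)) : IndepM c ρ t := by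
  classical
  intro v hv hE
  have hpow : ∀ k : ℕ, t (τ ^ k • x₀) = (ρ τ ^ k) (t x₀) := by
    intro k
    rw [ht.equiv, map_pow]
  have hform : ∀ w : X → ℤ, OddF c w → FZ t w =
      (2 : ℚ) • ∑ k ∈ Finset.range g, (w (τ ^ k • x₀) : ℚ) • (ρ τ ^ k) (t x₀) := by
    intro w hw
    unfold FZ FF
    rw [← Equiv.sum_comp (Equiv.ofBijective _ hbij) fun x => (w x : ℚ) • t x,
      Fintype.sum_prod_type, Finset.smul_sum,
      ← Fin.sum_univ_eq_sum_range fun k => (2 : ℚ) • ((w (τ ^ k • x₀) : ℚ) • (ρ τ ^ k) (t x₀))]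
    refine Finset.sum_congr rfl fun k _ => ?_
    simp only [Equiv.ofBijective_apply, Fintype.sum_bool]
    have e1 : cyc c τ g x₀ (k, true) = c • τ ^ (k : ℕ) • x₀ := rfl
    have e2 : cyc c τ g x₀ (k, false) = τ ^ (k : ℕ) • x₀ := rfl
    rw [e1, e2, hw, ht.odd, hpow]
    push_cast
    rw [neg_smul_neg, two_smul]
  have hτt : (ρ τ ^ g) (t x₀) = t x₀ := by
    rw [← hpow, hτg]
  have hcases : ∀ σ : G, ρ τ (t x₀) = t x₀ ∨ ∀ k < g, v (σ • τ ^ k • x₀) = v (σ • x₀) := by
    intro σ
    have h1 : ρ τ (FZ t fun x => v (σ • x)) = FZ t fun x => v (σ • x) := by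
      rw [FZ_smul ht]
      exact fix_eigSpan (fun m hm => rho_odd hm hodd) (rho_eigSpan hE σ⁻¹)
    rw [hform _ (hv.comp hcomm σ), map_smul, ← sub_eq_zero, ← smul_sub] at h1
    have h2 := sub_eq_zero.1 ((smul_eq_zero.1 h1).resolve_left two_ne_zero)
    refine (const_or_mod (ρ τ) (t x₀) hg hτt (fun k => (v (σ • τ ^ k • x₀) : ℚ)) h2).imp
      (fun h => h) fun h k hk => ?_
    have h3 := h k hk
    rw [pow_zero, one_smul] at h3
    exact_mod_cast h3
  by_cases hII : ρ τ (t x₀) = t x₀
  · left
    have hk : ∀ k : ℕ, t (τ ^ k • x₀) = t x₀ := by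
      intro k
      induction k with
      | zero => rw [pow_zero, one_smul]
      | succ k ih => rw [pow_succ', mul_smul, ht.equiv, ih, hII]
    have hval : ∀ x : X, t x = t x₀ ∨ t x = -t x₀ := by
      intro x
      obtain ⟨⟨k, b⟩, rfl⟩ := hbij.2 x
      rcases b with _ | _
      · exact Or.inl (hk k)
      · right
        have e1 : cyc c τ g x₀ (k, true) = c • τ ^ (k : ℕ) • x₀ := rfl
        rw [e1, ht.odd, hk]
    have hE0 : IsEigM ρ (t x₀) := fun σ => by
      rw [← ht.equiv]
      exact hval _
    intro x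
    rcases hval x with h | h
    · rw [h]
      exact hE0
    · rw [h]
      exact eigM_neg hE0
  · right
    exact sgn_of_orbit hcomm hbij hv fun σ n hn => (hcases σ).resolve_left hII n hn

end

end Pool.Agent.Q43.HQ
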