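import Pool.Agent.Q43.HQ.Angle
import Pool.Agent.TH170.FT.MT

/-!
# The Mumford-Tate conjecture from one Frobenius element with separated Weil numbers
-/

set_option autoImplicit false
set_option linter.unusedSectionVars false

namespace Pool.Agent.Q43.HQ

open NumberField Module Pool.Agent.H204R3.GP Pool.Agent.H204R3.CM Pool.Agent.TH170.MF
  Pool.Agent.TH170.FT Pool.Agent.Y137.MV

variable {p : ℕ} [Fact p.Prime] {a : ℕ} {I : Type} [Fintype I]
  {K : I → Type} [∀ i, Field (K i)] [∀ i, NumberField (K i)] [∀ i, IsCMField (K i)]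

theorem neat_of_angle {π : ∀ i, K i} (hang : MaximalAngleRank (p ^ a) π) {L : Type} [Field L]
    (j : L →+* ℂ) : Neat p a π L := by
  classical
  intro m M hM J hrel y
  let G : (Σ i, (K i →+* L)) → (Σ i, (K i →+* ℂ)) := fun x => ⟨x.1, j.comp x.2⟩
  have hG : Function.Injective G := by
    rintro ⟨i, φ⟩ ⟨i', φ'⟩ h
    obtain ⟨h1, h2⟩ := Sigma.mk.inj h
    obtain rfl : i = i' := h1
    have h3 := eq_of_heq h2
    congr 1
    ext x
    exact j.injective (RingHom.congr_fun h3 x)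
  have h1 : ∏ l, (G (J l)).2 (π (G (J l)).1) ^ M = ((p : ℂ) ^ a) ^ (m * M) := by
    have h2 := congrArg j hrel
    rw [map_prod, map_pow, map_pow, map_natCast] at h2
    rw [← h2]
    exact Finset.prod_congr rfl fun l _ => (map_pow j _ _).symm
  have h2 : ∏ z : Σ i, (K i →+* ℂ), (z.2 (π z.1)) ^
      ((M * (Finset.univ.filter fun l => G (J l) = z).card : ℕ) : ℤ) =
        (((p ^ a : ℕ)) : ℂ) ^ ((m * M : ℕ) : ℤ) := by
    rw [zpow_natCast, Nat.cast_pow, ← h1, ← Finset.prod_fiberwise Finset.univ fun l => G (J l)]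
    refine Finset.prod_congr rfl fun z _ => ?_
    rw [zpow_natCast, pow_mul, ← Finset.prod_const]
    refine Finset.prod_congr rfl fun l hl => ?_
    rw [(Finset.mem_filter.1 hl).2]
  have h3 := hang _ _ h2 y.1 (j.comp y.2)
  have h4 : M * (Finset.univ.filter fun l => G (J l) = ⟨y.1, j.comp y.2⟩).card =
      M * (Finset.univ.filter fun l => G (J l) =
        ⟨y.1, ComplexEmbedding.conjugate (j.comp y.2)⟩).card := by exact_mod_cast h3
  have h5 := Nat.eq_of_mul_eq_mul_left hM h4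
  have h6 : ∀ l, G (J l) = ⟨y.1, j.comp y.2⟩ ↔ J l = y := fun l =>
    ⟨fun h => hG h, fun h => by rw [h]⟩
  have h7 : ∀ l, G (J l) = ⟨y.1, ComplexEmbedding.conjugate (j.comp y.2)⟩ ↔ J l = bar y := by
    intro l
    have h8 : G (bar y) = ⟨y.1, ComplexEmbedding.conjugate (j.comp y.2)⟩ := by
      change (⟨y.1, j.comp (cbar y.2)⟩ : Σ i, (K i →+* ℂ)) = _
      rw [comp_cbar]
    rw [← h8]
    exact ⟨fun h => hG h, fun h => by rw [h]⟩
  simp only [h6, h7] at h5
  exact h5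

/-- The Mumford-Tate conjecture from one Frobenius element. -/
theorem mumfordTate_separated (ha : 0 < a) {π : ∀ i, K i}
    (hw : ∀ i, π i * IsCMField.complexConj (K i) (π i) = (p : K i) ^ a)
    (h : IsSeparated (p ^ a) K π) {ℓ : ℕ} [Fact ℓ.Prime] {W T V Γ : Type} [AddCommGroup W]
    [Module ℚ W] [AddCommGroup T] [Module ℂ T] [AddCommGroup V] [Module ℚ_[ℓ] V]
    [FiniteDimensional ℚ_[ℓ] V] [Group Γ] {per : W →+ T} {ω₀ : W →ₗ[ℚ] W →ₗ[ℚ] ℚ}
    {comp : W →+ V} {ρ : Representation ℚ_[ℓ] Γ V} {χ : Γ →* ℚ_[ℓ]}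
    {ω : V →ₗ[ℚ_[ℓ]] V →ₗ[ℚ_[ℓ]] ℚ_[ℓ]} (hR : IsRealization per ω₀ comp ρ χ ω)
    (hF : HasFrobenius ρ χ p a π) : MumfordTateStrong per comp ρ χ := by
  obtain ⟨L, hL1, hL2, j, hj⟩ := Pool.Agent.H204R3.CM.exists_galois K
  have hgen : ∀ i, IntermediateField.adjoin ℚ {π i} = ⊤ := fun i => by
    have h1 := h.generated i 1 one_pos
    rwa [pow_one] at h1
  exact mumfordTate ha hgen hw j hj (neat_of_angle (maximalAngleRank
    (Nat.one_lt_pow ha.ne' (Fact.out : p.Prime).one_lt)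
    (fun i => by rw [hw i, Nat.cast_pow]) h) j) hR hF

end Pool.Agent.Q43.HQ
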