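import Pool.Agent.Q43.HQ.Eqv

/-!
# The multiplicative group of a field, modulo torsion, as a representation of the Galois group
-/

set_option autoImplicit false
set_option linter.unusedSectionVars false
set_option linter.unusedVariables false

namespace Pool.Agent.Q43.HQ

open scoped TensorProduct

noncomputable section

variable (L : Type) [Field L]

/-- The rational vector space given by the multiplicative group. -/
abbrev UM : Type := ℚ ⊗[ℤ] Additive Lˣ

variable {L}

/-- The class of a unit. -/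
def cl (u : Lˣ) : UM L := (1 : ℚ) ⊗ₜ[ℤ] Additive.ofMul u

theorem cl_mul (u w : Lˣ) : cl (u * w) = cl u + cl w := by
  unfold cl
  rw [ofMul_mul, TensorProduct.tmul_add]

theorem cl_one : cl (1 : Lˣ) = 0 := by
  unfold cl
  rw [ofMul_one, TensorProduct.tmul_zero]

theorem cl_pow (u : Lˣ) (n : ℕ) : cl (u ^ n) = (n : ℚ) • cl u := by
  induction n with
  | zero => rw [pow_zero, cl_one, Nat.cast_zero, zero_smul]
  | succ n ih => rw [pow_succ, cl_mul, ih, Nat.cast_succ, add_smul, one_smul]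

theorem cl_inv (u : Lˣ) : cl u⁻¹ = -cl u := by
  rw [eq_neg_iff_add_eq_zero, ← cl_mul, inv_mul_cancel, cl_one]

theorem cl_zpow (u : Lˣ) (n : ℤ) : cl (u ^ n) = (n : ℚ) • cl u := by
  obtain ⟨m, rfl | rfl⟩ := n.eq_nat_or_neg
  · rw [zpow_natCast, cl_pow, Int.cast_natCast]
  · rw [zpow_neg, zpow_natCast, cl_inv, cl_pow, Int.cast_neg, Int.cast_natCast, neg_smul]

theorem cl_prod {κ : Type} (s : Finset κ) (f : κ → Lˣ) : cl (∏ k ∈ s, f k) = ∑ k ∈ s, cl (f k) := by
  classical
  induction s using Finset.induction_on with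
  | empty => rw [Finset.prod_empty, Finset.sum_empty, cl_one]
  | insert a s ha ih => rw [Finset.prod_insert ha, Finset.sum_insert ha, cl_mul, ih]

/-- The kernel consists of the roots of unity. -/
theorem pow_eq_one_of_cl {u : Lˣ} (h : cl u = 0) : ∃ n : ℕ, 0 < n ∧ u ^ n = 1 := by
  have h1 : IsLocalizedModule (nonZeroDivisors ℤ) (TensorProduct.mk ℤ ℚ (Additive Lˣ) 1) :=
    (isLocalizedModule_iff_isBaseChange (nonZeroDivisors ℤ) ℚ _).2
      (TensorProduct.isBaseChange ℤ (Additive Lˣ) ℚ)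
  have h2 : (TensorProduct.mk ℤ ℚ (Additive Lˣ) 1) (Additive.ofMul u) = 0 := h
  rw [IsLocalizedModule.eq_zero_iff (nonZeroDivisors ℤ)] at h2
  obtain ⟨⟨n, hn⟩, h3⟩ := h2
  have hn0 : n ≠ 0 := nonZeroDivisors.ne_zero hn
  have h4 : n • Additive.ofMul u = 0 := h3
  have h5 : u ^ n = 1 := by
    rw [← ofMul_zpow] at h4
    exact Additive.ofMul.injective h4
  refine ⟨n.natAbs, Int.natAbs_pos.2 hn0, ?_⟩
  rcases Int.natAbs_eq n with h6 | h6
  · rw [h6, zpow_natCast] at h5
    exact h5
  · rw [h6, zpow_neg, zpow_natCast, inv_eq_one] at h5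
    exact h5

/-- The action of the automorphisms. -/
def uact (σ : L →+* L) : UM L →ₗ[ℚ] UM L :=
  (MonoidHom.toAdditive (Units.map (σ : L →* L))).toIntLinearMap.baseChange ℚ

theorem uact_cl (σ : L →+* L) (u : Lˣ) : uact σ (cl u) = cl (Units.map (σ : L →* L) u) := by
  unfold uact cl
  rw [LinearMap.baseChange_tmul]
  rfl

theorem uact_ext {f g : UM L →ₗ[ℚ] UM L} (h : ∀ u : Lˣ, f (cl u) = g (cl u)) : f = g := by
  refine TensorProduct.AlgebraTensorModule.ext fun a x => ?_
  have h1 : a ⊗ₜ[ℤ] x = a • cl (Additive.toMul x) := by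
    unfold cl
    rw [TensorProduct.smul_tmul', smul_eq_mul, mul_one]
    rfl
  rw [h1, map_smul, map_smul, h]

section gal

variable [Algebra ℚ L]

/-- The representation of the Galois group. -/
def urep (L : Type) [Field L] [Algebra ℚ L] : (L ≃ₐ[ℚ] L) →* (UM L →ₗ[ℚ] UM L) where
  toFun σ := uact (σ : L →+* L)
  map_one' := uact_ext fun u => by
    rw [uact_cl]
    congr 1
  map_mul' σ τ := uact_ext fun u => by
    change uact ((σ * τ : L ≃ₐ[ℚ] L) : L →+* L) (cl u) =
      uact (σ : L →+* L) (uact (τ : L →+* L) (cl u))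
    rw [uact_cl, uact_cl, uact_cl]
    congr 1

theorem urep_cl (σ : L ≃ₐ[ℚ] L) (u : Lˣ) :
    urep L σ (cl u) = cl (Units.map ((σ : L →+* L) : L →* L) u) := uact_cl _ _

end gal

end

end Pool.Agent.Q43.HQ
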