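import Pool.Agent.Q43.HQ.Fld
import Pool.Agent.Q43.HQ.Tens
import Pool.Agent.Y137.MV.Defs

/-!
# The angle rank of separated families of Weil numbers is maximal
-/

set_option autoImplicit false
set_option linter.unusedSectionVars false
set_option linter.unusedVariables false

namespace Pool.Agent.Q43.HQ

open NumberField Pool.Agent.H204R3.CM Pool.Agent.W547.KB Pool.Agent.W547.LD Pool.Agent.W547.HR
  Pool.Agent.W495.TA Pool.Agent.W495.TB Pool.Agent.W495.TC Pool.Agent.TH117.F5
  Pool.Agent.TH117.PO Pool.Agent.TH117.BL Module Pool.Agent.W976.TA Equiv Pool.Agent.Q43.HN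
  Pool.Agent.Q43.HP
open scoped TensorProduct

noncomputable section

variable {L : Type} [Field L] [NumberField L] [IsCMField L] [IsGalois ℚ L] {j : L →+* ℂ}

/-- The unit given by a nonzero element of a subfield. -/
def un {K : Type} [Field K] (φ : K →+* L) {x : K} (hx : x ≠ 0) : Lˣ :=
  Units.mk0 (φ x) ((map_ne_zero φ).2 hx)

/-- The class of `φ(π) ^ 2 / q`. -/
def tp {K : Type} [Field K] {π : K} (hπ : π ≠ 0) {q : ℕ} (hq : (q : L) ≠ 0) (φ : K →+* L) :
    UM L := (2 : ℚ) • cl (un φ hπ) - cl (Units.mk0 (q : L) hq)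

section one

variable {A : CMPair} {π : A.E} (hπ : π ≠ 0) {q : ℕ} (hq : (q : L) ≠ 0)
  (hw : π * IsCMField.complexConj A.E π = (q : A.E))

include j hw in
theorem mul_conj (φ : A.E →+* L) : (cc L • φ) π * φ π = (q : L) := by
  apply j.injective
  have h1 := RingHom.congr_fun (Pool.Agent.TH117.BL.comp_cc (j := j) φ) π
  change j ((cc L • φ) π) = _ at h1
  rw [map_mul, h1, ComplexEmbedding.conjugate_coe_eq, map_natCast]
  have h2 := congrArg (j.comp φ) hw
  rw [map_mul, IsCMField.complexEmbedding_complexConj, map_natCast] at h2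
  rw [mul_comm]
  exact h2

theorem cl_q (σ : L ≃ₐ[ℚ] L) : urep L σ (cl (Units.mk0 (q : L) hq)) =
    cl (Units.mk0 (q : L) hq) := by
  rw [urep_cl]
  congr 1
  ext
  change σ (q : L) = (q : L)
  exact map_natCast σ q

theorem cl_un (σ : L ≃ₐ[ℚ] L) (φ : A.E →+* L) : urep L σ (cl (un φ hπ)) = cl (un (σ • φ) hπ) := by
  rw [urep_cl]
  congr 1
  ext
  rfl

include j hw in
theorem isEqv_tp : IsEqv (cc L) (urep L) (tp hπ hq : (A.E →+* L) → UM L) := by
  refine ⟨fun σ φ => ?_, fun φ => ?_⟩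
  · unfold tp
    rw [map_sub, map_smul, cl_un, cl_q]
  · unfold tp
    have h1 : cl (un (cc L • φ) hπ) + cl (un φ hπ) = cl (Units.mk0 (q : L) hq) := by
      rw [← cl_mul]
      congr 1
      ext
      exact mul_conj (j := j) hw φ
    rw [← h1]
    module

include j hw in
/-- Equal classes. -/
theorem eq_of_tp (hgen : ∀ n : ℕ, 0 < n → IntermediateField.adjoin ℚ {π ^ n} = ⊤)
    {φ ψ : A.E →+* L} (h : tp hπ hq φ = tp hπ hq ψ) : φ = ψ := by
  unfold tp at h
  have h1 : cl (un φ hπ * (un ψ hπ)⁻¹) = 0 := by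
    rw [cl_mul, cl_inv]
    have h2 : (2 : ℚ) • (cl (un φ hπ) + -cl (un ψ hπ)) = 0 := by
      linear_combination (norm := module) h
    exact (smul_eq_zero.1 h2).resolve_left two_ne_zero
  obtain ⟨n, hn, h2⟩ := pow_eq_one_of_cl h1
  have h3 : φ (π ^ n) = ψ (π ^ n) := by
    rw [mul_pow, inv_pow, mul_inv_eq_one] at h2
    have h4 := congrArg (fun u : Lˣ => (u : L)) h2
    rw [map_pow, map_pow]
    exact h4
  let E₀ : IntermediateField ℚ A.E := (RingHom.eqLocusField φ ψ).toIntermediateField fun x => by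
    change φ (algebraMap ℚ A.E x) = ψ (algebraMap ℚ A.E x)
    rw [eq_ratCast, map_ratCast, map_ratCast]
  have h4 : (⊤ : IntermediateField ℚ A.E) ≤ E₀ := by
    rw [← hgen n hn, IntermediateField.adjoin_le_iff, Set.singleton_subset_iff]
    exact h3
  ext x
  exact h4 IntermediateField.mem_top

/-- Signs on all values are excluded, for fields of degree larger than two. -/
theorem not_eigT (hA : BigA A j) (hw : π * IsCMField.complexConj A.E π = (q : A.E))
    (hgen : ∀ n : ℕ, 0 < n → IntermediateField.adjoin ℚ {π ^ n} = ⊤) (h2 : 2 < finrank ℚ A.E) :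
    ¬ EigT (urep L) (tp hπ hq : (A.E →+* L) → UM L) := by
  intro h
  have hset := setting j A
  have heq := isEqv_tp (j := j) hπ hq hw
  obtain ⟨φ⟩ : Nonempty (A.E →+* L) := by
    by_contra hcon
    rw [not_nonempty_iff] at hcon
    have h1 := Pool.Agent.W547.LN.card_hom A j hA
    rw [Nat.card_of_isEmpty] at h1
    omega
  obtain ⟨ψ, h3, h4⟩ := exists_other (j := j) hA h2 φ
  obtain ⟨σ, hσ⟩ := hset.trans φ ψ
  rcases h φ σ with h5 | h5
  · rw [← heq.equiv, hσ] at h5
    exact h3 (eq_of_tp (j := j) hπ hq hw hgen h5)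
  · rw [← heq.equiv, hσ, ← heq.odd] at h5
    exact h4 (eq_of_tp (j := j) hπ hq hw hgen h5)

/-- The sum over one half of the embeddings. -/
theorem half_sum (j : L →+* ℂ) [Fintype (A.E →+* L)]
    (hc : IsEqv (cc L) (urep L) (tp hπ hq : (A.E →+* L) → UM L))
    (P : (A.E →+* L) → Prop) [DecidablePred P] (hP : ∀ φ, P (cc L • φ) ↔ ¬ P φ) :
    ∑ φ : A.E →+* L, (if P φ then (1 : ℚ) else -1) • tp hπ hq φ =
      (2 : ℚ) • ∑ φ : A.E →+* L with P φ, tp hπ hq φ ∧
    2 * (Finset.univ.filter P).card = Fintype.card (A.E →+* L) := by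
  classical
  have hcc : ∀ φ : A.E →+* L, cc L • cc L • φ = φ := fun φ => by
    rw [← mul_smul, (setting j A).sq, one_smul]
  have hbij : ∀ f : (A.E →+* L) → UM L, ∑ φ : A.E →+* L with ¬ P φ, f φ =
      ∑ φ : A.E →+* L with P φ, f (cc L • φ) := by
    intro f
    refine Finset.sum_bij (fun φ _ => cc L • φ) ?_ ?_ ?_ ?_
    · intro φ hφ
      rw [Finset.mem_filter] at hφ ⊢
      exact ⟨Finset.mem_univ _, (hP φ).2 hφ.2⟩
    · intro φ _ ψ _ h
      exact MulAction.injective _ h
    · intro φ hφ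
      rw [Finset.mem_filter] at hφ
      refine ⟨cc L • φ, ?_, hcc φ⟩
      rw [Finset.mem_filter]
      refine ⟨Finset.mem_univ _, fun h => (hP φ).1 h hφ.2⟩
    · intro φ _
      rw [hcc]
  constructor
  · rw [← Finset.sum_filter_add_sum_filter_not Finset.univ P]
    rw [Finset.sum_congr rfl fun φ hφ => by rw [if_pos (Finset.mem_filter.1 hφ).2, one_smul]]
    rw [Finset.sum_congr (s₁ := Finset.univ.filter fun φ => ¬ P φ) rfl fun φ hφ => by
      rw [if_neg (Finset.mem_filter.1 hφ).2, neg_one_smul]]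
    have hneg : ∀ φ : A.E →+* L, tp hπ hq (cc L • φ) = -tp hπ hq φ := hc.odd
    rw [Finset.sum_neg_distrib, hbij, ← Finset.sum_neg_distrib, two_smul]
    congr 1
    exact Finset.sum_congr rfl fun φ _ => by rw [hneg, neg_neg]
  · have h1 : (Finset.univ.filter P).card = (Finset.univ.filter fun φ => ¬ P φ).card := by
      refine Finset.card_bij (fun φ _ => cc L • φ) ?_ ?_ ?_
      · intro φ hφ
        rw [Finset.mem_filter] at hφ ⊢
        exact ⟨Finset.mem_univ _, fun h => (hP φ).1 h hφ.2⟩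
      · intro φ _ ψ _ h
        exact MulAction.injective _ h
      · intro φ hφ
        rw [Finset.mem_filter] at hφ
        refine ⟨cc L • φ, ?_, hcc φ⟩
        rw [Finset.mem_filter]
        exact ⟨Finset.mem_univ _, (hP φ).2 hφ.2⟩
    have h2 := Finset.card_filter_add_card_filter_not (s := (Finset.univ : Finset (A.E →+* L))) P
    rw [← h1, Finset.card_univ] at h2
    omega

/-- Balanced norms. -/
theorem balanced_of [Fintype (A.E →+* L)] (hA : BigA A j)
    (hw : π * IsCMField.complexConj A.E π = (q : A.E)) {t : A.E} {d : ℕ} (hd : 0 < d)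
    (ht : t ^ 2 = -(d : A.E)) (h : ∑ φ : A.E →+* L with 0 < (j (φ t)).im, tp hπ hq φ = 0) :
    IsBalanced q π t := by
  classical
  have heq := isEqv_tp (j := j) hπ hq hw
  set P : (A.E →+* L) → Prop := fun φ => 0 < (j (φ t)).im with hPdef
  have hP : ∀ φ, P (cc L • φ) ↔ ¬ P φ := by
    intro φ
    have h1 := RingHom.congr_fun (Pool.Agent.TH117.BL.comp_cc (j := j) φ) t
    change j ((cc L • φ) t) = _ at h1
    have h2 : (j (φ t)).im ≠ 0 := im_ne_root hd (by
      rw [← map_pow, ← map_pow, ht, map_neg, map_neg, map_natCast, map_natCast])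
    rw [hPdef]
    change 0 < (j ((cc L • φ) t)).im ↔ ¬ 0 < (j (φ t)).im
    rw [h1, ComplexEmbedding.conjugate_coe_eq, Complex.conj_im]
    change 0 < -(j (φ t)).im ↔ _
    constructor
    · intro h
      linarith
    · intro h
      rcases lt_or_gt_of_ne h2 with h3 | h3
      · linarith
      · exact absurd h3 h
  obtain ⟨-, hcard⟩ := half_sum hπ hq j heq P hP
  set S : Finset (A.E →+* L) := Finset.univ.filter P with hS
  have h1 : cl ((∏ φ ∈ S, un φ hπ) ^ 2 * ((Units.mk0 (q : L) hq) ^ S.card)⁻¹) = 0 := by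
    rw [cl_mul, cl_inv, cl_pow, cl_pow, cl_prod, ← h]
    unfold tp
    rw [Finset.sum_sub_distrib, ← Finset.smul_sum, Finset.sum_const,
      ← Nat.cast_smul_eq_nsmul ℚ, Nat.cast_ofNat, sub_eq_add_neg]
  obtain ⟨n, hn, h2⟩ := pow_eq_one_of_cl h1
  rw [mul_pow, inv_pow, mul_inv_eq_one] at h2
  have h3 := congrArg (fun u : Lˣ => j (u : L)) h2
  simp only [Units.val_pow_eq_pow_val, Units.coe_prod, Units.val_mk0, map_pow, map_prod,
    map_natCast] at h3
  refine ⟨n, hn, ?_⟩
  let e : (A.E →+* L) ≃ (A.E →+* ℂ) := Equiv.ofBijective (fun φ => j.comp φ)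
    ⟨fun φ ψ h => cancel_j h, fun φ => hA φ⟩
  have h4 : (∏ φ : A.E →+* ℂ, if 0 < (φ t).im then φ π else 1) =
      ∏ φ ∈ S, j (un φ hπ : L) := by
    rw [← Equiv.prod_comp e fun φ : A.E →+* ℂ => if 0 < (φ t).im then φ π else 1, hS,
      Finset.prod_filter]
    exact Finset.prod_congr rfl fun φ _ => rfl
  have h5 : (finrank ℚ A.E) = 2 * S.card := by
    rw [hcard, ← Pool.Agent.W547.LN.card_hom A j hA, Nat.card_eq_fintype_card]
  rw [h4, h5]
  have h6 : 4 * n = 2 * n * 2 := by ring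
  rw [h6, pow_mul, pow_mul, h3, ← pow_mul, ← pow_mul]
  congr 1
  ring

end one

end

end Pool.Agent.Q43.HQ
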