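import Pool.Agent.Q43.HQ.Elem
import Pool.Agent.TH170.GS.TB2

/-!
# Schemes over finite fields generated by abelian varieties with separated factors
-/

set_option autoImplicit false

namespace Pool.Agent.Q43.HQ

open Pool.Agent.W495.TA Pool.Agent.W495.FM Pool.Agent.TH117 Pool.Agent.TH117.GN Module

variable {p : ℕ} [Fact p.Prime] {ν : PadicAlgCl p ≃+* ℂ} {Ω : Type} [Field Ω] [IsAlgClosed Ω]
  [CharZero Ω] {V : Type} {T : Homology Ω V}

theorem tateHolds_product {Y : RedAV p ν} {C : Cycles Ω Y} (hY : IsSeparatedProduct Y)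
    (hC : IsChow C) : TateHolds C :=
  tateHolds_elem (elementary_of_product hY) (fun k => Or.inr ⟨k, RingHom.id _, 1, 1, one_pos,
    one_pos, rfl, rfl⟩) hC

theorem tb_separated (hT : IsHomology T) {X : V}
    (hX : Generated T (IsSeparatedAbelian p ν T) X) : TB T X := by
  refine tb_generated hT (fun X hX => ?_) hX
  obtain ⟨Y, C, M, g, hY, hC, hM, hX⟩ := hX
  exact tb_abelian hT hC (tateHolds_product hY hC) hM hX

theorem iso_separated (hT : IsHomology T) (hW : HasWeights T) {X : V}
    (hX : Generated T (IsSeparatedAbelian p ν T) X) {Z U : V} {d : ℤ} (h1 : IsTriple T Z X U)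
    (hZ : HasDimLE T Z d) {i : ℤ} (hi : d ≤ i) : IsIso T U i :=
  iso_opened hT hW h1 (onto_of_dim hT hZ hi) ((tb_separated hT hX).iso hT i)

theorem onto_separated (hT : IsHomology T) (hW : HasWeights T) {X : V}
    (hX : Spread T (Generated T (IsSeparatedAbelian p ν T)) X) (i : ℤ) : IsOnto T X i :=
  onto_spread hT hW (fun _ h1 i => ((tb_separated hT h1).iso hT i).1) hX i

end Pool.Agent.Q43.HQ
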