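import Pool.Agent.Q43.HQ.Ind

/-!
# Relations between the values of several equivariant maps
-/

set_option autoImplicit false
set_option linter.unusedSectionVars false
set_option linter.unusedVariables false

namespace Pool.Agent.Q43.HQ

open Pool.Agent.Q43.HP
open Pool.Agent.Q43.HN (cyc)

noncomputable section

variable {G : Type} [Group G] {M : Type} [AddCommGroup M] [Module ℚ M]
  {I : Type} [Fintype I] {X : I → Type} [∀ i, MulAction G (X i)] [∀ i, Fintype (X i)] {c : G}
  {ρ : G →* (M →ₗ[ℚ] M)} {T : ∀ i, X i → M}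

/-- A relation with odd coefficients. -/
structure IsRelT (c : G) (T : ∀ i, X i → M) (v : ∀ i, X i → ℤ) : Prop where
  odd : ∀ i, OddF c (v i)
  rel : ∑ i, FZ (T i) (v i) = 0

/-- The element acts trivially. -/
def TrX (X : Type) [MulAction G X] (σ : G) : Prop := ∀ x : X, σ • x = x

theorem TrX.mul {X : Type} [MulAction G X] {σ τ : G} (h : TrX X σ) (h' : TrX X τ) :
    TrX X (σ * τ) := fun x => by rw [mul_smul, h', h]

theorem TrX.inv {X : Type} [MulAction G X] {σ : G} (h : TrX X σ) : TrX X σ⁻¹ := fun x => by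
  rw [inv_smul_eq_iff, h]

theorem TrX.conj {X : Type} [MulAction G X] {σ : G} (h : TrX X σ) (τ : G) :
    TrX X (τ * σ * τ⁻¹) := fun x => by
  rw [mul_smul, mul_smul, h, smul_inv_smul]

variable (hcomm : ∀ h, c * h = h * c) (htrans : ∀ (i : I) (x y : X i), ∃ h : G, h • x = y)
  (hT : ∀ i, IsEqv c ρ (T i))

include hcomm hT in
theorem rel_smul {v : ∀ i, X i → ℤ} (hv : IsRelT c T v) (σ : G) :
    IsRelT c T fun i x => v i (σ • x) := by
  refine ⟨fun i => (hv.odd i).comp hcomm σ, ?_⟩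
  have h1 : ∀ i, FZ (T i) (fun x => v i (σ • x)) = ρ σ⁻¹ (FZ (T i) (v i)) := fun i =>
    FZ_smul (hT i) (v i) σ
  rw [Finset.sum_congr rfl fun i _ => h1 i, ← map_sum, hv.rel, map_zero]

theorem rel_sub {v w : ∀ i, X i → ℤ} (hv : IsRelT c T v) (hw : IsRelT c T w) :
    IsRelT c T fun i x => v i x - w i x := by
  refine ⟨fun i x => ?_, ?_⟩
  · rw [hv.odd, hw.odd]
    ring
  · rw [Finset.sum_congr rfl fun i _ => FZ_sub (t := T i) (v i) (w i), Finset.sum_sub_distrib,
      hv.rel, hw.rel, sub_zero]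

theorem FZ_sum {X : Type} [Fintype X] {t : X → M} {κ : Type} (s : Finset κ) (v : κ → X → ℤ) :
    FZ t (fun x => ∑ k ∈ s, v k x) = ∑ k ∈ s, FZ t (v k) := by
  unfold FZ FF
  rw [Finset.sum_comm]
  refine Finset.sum_congr rfl fun x _ => ?_
  push_cast
  rw [Finset.sum_smul]

theorem rel_sum {κ : Type} (s : Finset κ) {v : κ → ∀ i, X i → ℤ}
    (hv : ∀ k ∈ s, IsRelT c T (v k)) : IsRelT c T fun i x => ∑ k ∈ s, v k i x := by
  refine ⟨fun i x => ?_, ?_⟩
  · rw [← Finset.sum_neg_distrib]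
    exact Finset.sum_congr rfl fun k hk => (hv k hk).odd i x
  · rw [Finset.sum_congr rfl fun i _ => FZ_sum (t := T i) s fun k => v k i, Finset.sum_comm]
    exact Finset.sum_eq_zero fun k hk => (hv k hk).rel

include hT in
theorem mem_of_rel {v : ∀ i, X i → ℤ} (hv : IsRelT c T v) {i : I}
    (h : ∀ k, k ≠ i → FZ (T k) (v k) ∈ EigSpan ρ) : FZ (T i) (v i) ∈ EigSpan ρ := by
  classical
  have h1 := hv.rel
  rw [← Finset.add_sum_erase Finset.univ _ (Finset.mem_univ i)] at h1
  rw [eq_neg_of_add_eq_zero_left h1]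
  exact Submodule.neg_mem _ (Submodule.sum_mem _ fun k hk => h k (Finset.ne_of_mem_erase hk))

include hcomm htrans hT in
/-- The induction. -/
theorem sgn_step {i : I} (hR : Rigid c (X i)) (hI : IndepM c ρ (T i)) (n : ℕ) :
    ∀ v : ∀ i, X i → ℤ, IsRelT c T v → ¬ SgnF G (v i) →
      (∀ k, k ≠ i → EigT ρ (T k) ∨ SgnF G (v k) ∨ ∃ κ : G, TrX (X k) κ ∧ ¬ TrX (X i) κ) →
      Nat.card {k : I // k ≠ i ∧ ¬ EigT ρ (T k) ∧ ¬ SgnF G (v k)} ≤ n → EigT ρ (T i) := by
  classical
  have hbase : ∀ v : ∀ i, X i → ℤ, IsRelT c T v → ¬ SgnF G (v i) →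
      IsEmpty {k : I // k ≠ i ∧ ¬ EigT ρ (T k) ∧ ¬ SgnF G (v k)} → EigT ρ (T i) := by
    intro v hv hn hE
    refine (hI (v i) (hv.odd i) (mem_of_rel hT hv fun k hk => ?_)).resolve_right hn
    by_cases h1 : EigT ρ (T k)
    · exact mem_eigSpan (eig_of_eigT (hT k) h1 (htrans k) _)
    · by_cases h2 : SgnF G (v k)
      · exact mem_eigSpan (eig_of_sgn (hT k) h2)
      · exact (hE.false ⟨k, hk, h1, h2⟩).elim
  induction n with
  | zero =>
    intro v hv hn hall hcard
    refine hbase v hv hn ?_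
    have h1 := Nat.le_zero.1 hcard
    rw [Nat.card_eq_zero] at h1
    exact h1.resolve_right fun h => h.not_finite (Subtype.finite)
  | succ n ih =>
    intro v hv hn hall hcard
    by_cases hE : IsEmpty {k : I // k ≠ i ∧ ¬ EigT ρ (T k) ∧ ¬ SgnF G (v k)}
    · exact hbase v hv hn hE
    · rw [not_isEmpty_iff] at hE
      obtain ⟨k, hk, hk1, hk2⟩ := hE
      obtain ⟨κ, hκ, hκi⟩ := ((hall k hk).resolve_left hk1).resolve_left hk2
      obtain ⟨σ, hσ⟩ : ∃ σ : G, ¬ SgnF G fun x : X i => v i (σ • x) - v i (σ • κ • x) := by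
        by_contra hcon
        push Not at hcon
        exact hκi (hR (v i) (hv.odd i) hn κ hcon)
      let w : ∀ i, X i → ℤ := fun i x => v i (σ • x) - v i (σ • κ • x)
      have hw : IsRelT c T w := by
        have h1 := rel_sub (rel_smul hcomm hT hv σ) (rel_smul hcomm hT hv (σ * κ))
        have h2 : w = fun i x => v i (σ • x) - v i ((σ * κ) • x) := by
          funext i x
          change v i (σ • x) - v i (σ • κ • x) = _
          rw [mul_smul]
        rw [h2]
        exact h1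
      have hSw : ∀ k, SgnF G (v k) → SgnF G (w k) := fun k hk => hk.sub σ κ
      have hkw : SgnF G (w k) := by
        refine sgnF_zero fun x => ?_
        change v k (σ • x) - v k (σ • κ • x) = 0
        rw [hκ, sub_self]
      refine ih w hw hσ ?_ ?_
      · intro k' hk'
        rcases hall k' hk' with h | h | h
        · exact Or.inl h
        · exact Or.inr (Or.inl (hSw k' h))
        · exact Or.inr (Or.inr h)
      · have hlt : Nat.card {k : I // k ≠ i ∧ ¬ EigT ρ (T k) ∧ ¬ SgnF G (w k)} <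
            Nat.card {k : I // k ≠ i ∧ ¬ EigT ρ (T k) ∧ ¬ SgnF G (v k)} := by
          have h1 : {k : I | k ≠ i ∧ ¬ EigT ρ (T k) ∧ ¬ SgnF G (w k)} ⊂
              {k : I | k ≠ i ∧ ¬ EigT ρ (T k) ∧ ¬ SgnF G (v k)} := by
            refine ⟨fun k' hk' => ⟨hk'.1, hk'.2.1, fun h => hk'.2.2 (hSw k' h)⟩, fun hsub => ?_⟩
            have h2 : k ∈ {k : I | k ≠ i ∧ ¬ EigT ρ (T k) ∧ ¬ SgnF G (w k)} :=
              hsub ⟨hk, hk1, hk2⟩
            exact h2.2.2 hkw
          exact Set.ncard_lt_ncard h1 (Set.toFinite _)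
        omega

include hcomm htrans hT in
/-- The group acts on the coefficients by signs. -/
theorem sgn_of_sep [Fintype G] {i : I} (hR : Rigid c (X i)) (hI : IndepM c ρ (T i))
    (hsep : ∀ k, k ≠ i → EigT ρ (T k) ∨ (∃ κ : G, TrX (X k) κ ∧ ¬ TrX (X i) κ) ∨
      (Rigid c (X k) ∧ ∃ κ : G, TrX (X i) κ ∧ ¬ TrX (X k) κ))
    {v : ∀ i, X i → ℤ} (hv : IsRelT c T v) : EigT ρ (T i) ∨ SgnF G (v i) := by
  classical
  by_cases hS : SgnF G (v i)
  · exact Or.inr hS
  left
  let N : Finset G := Finset.univ.filter fun κ => TrX (X i) κ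
  let v' : ∀ i, X i → ℤ := fun k x => ∑ κ ∈ N, v k (κ • x)
  have hv' : IsRelT c T v' := rel_sum N fun κ _ => rel_smul hcomm hT hv κ
  have hN1 : (1 : G) ∈ N := by
    rw [Finset.mem_filter]
    exact ⟨Finset.mem_univ _, fun x => one_smul _ _⟩
  have hi : ∀ x : X i, v' i x = N.card * v i x := by
    intro x
    change ∑ κ ∈ N, v i (κ • x) = _
    rw [Finset.sum_congr rfl fun κ hκ => by rw [(Finset.mem_filter.1 hκ).2 x],
      Finset.sum_const, nsmul_eq_mul]
  have hNpos : (N.card : ℤ) ≠ 0 := by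
    have h1 : 0 < N.card := Finset.card_pos.2 ⟨1, hN1⟩
    exact_mod_cast h1.ne'
  have hS' : ¬ SgnF G (v' i) := by
    intro h
    apply hS
    intro σ
    refine (h σ).imp (fun h1 x => ?_) fun h1 x => ?_
    · have h2 := h1 x
      rw [hi, hi] at h2
      exact mul_left_cancel₀ hNpos h2
    · have h2 := h1 x
      rw [hi, hi, ← mul_neg] at h2
      exact mul_left_cancel₀ hNpos h2
  refine sgn_step hcomm htrans hT hR hI _ v' hv' hS' (fun k hk => ?_) le_rfl
  rcases hsep k hk with h | h | ⟨h, κ₀, h1, h2⟩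
  · exact Or.inl h
  · exact Or.inr (Or.inr h)
  · right
    left
    by_contra hcon
    apply h2
    refine h (v' k) (hv'.odd k) hcon κ₀ fun σ => ?_
    refine sgnF_zero fun x => ?_
    have h3 : v' k (σ • κ₀ • x) = v' k (σ • x) := by
      change ∑ κ ∈ N, v k (κ • σ • κ₀ • x) = ∑ κ ∈ N, v k (κ • σ • x)
      refine Finset.sum_bij (fun κ _ => κ * (σ * κ₀ * σ⁻¹)) ?_ ?_ ?_ ?_
      · intro κ hκ
        rw [Finset.mem_filter] at hκ ⊢
        exact ⟨Finset.mem_univ _, hκ.2.mul (h1.conj σ)⟩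
      · intro κ _ κ' _ h4
        exact mul_right_cancel h4
      · intro κ hκ
        rw [Finset.mem_filter] at hκ
        refine ⟨κ * (σ * κ₀ * σ⁻¹)⁻¹, ?_, ?_⟩
        · rw [Finset.mem_filter]
          exact ⟨Finset.mem_univ _, hκ.2.mul (h1.conj σ).inv⟩
        · rw [inv_mul_cancel_right]
      · intro κ _
        rw [← mul_smul, ← mul_smul, ← mul_smul]
        congr 2
        group
    rw [h3, sub_self]

include hT in
/-- The contribution of a factor on whose coefficients the group acts by signs, if the character is not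
trivial on the stabilizers of the other factors. -/
theorem contr_zero [Fintype G] {i : I} {v : ∀ i, X i → ℤ} (hv : IsRelT c T v)
    (hS : SgnF G (v i)) (hk : ∀ k, k ≠ i → ∀ x : X k, ∃ κ : G, κ • x = x ∧
      ∀ y : X i, v i (κ • y) = -v i y) : FZ (T i) (v i) = 0 := by
  classical
  by_cases hv0 : ∀ y, v i y = 0
  · unfold FZ FF
    refine Finset.sum_eq_zero fun x _ => ?_
    change ((v i x : ℤ) : ℚ) • T i x = 0
    rw [hv0, Int.cast_zero, zero_smul]
  push Not at hv0
  obtain ⟨y₀, hy₀⟩ := hv0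
  let χ : G → ℚ := fun σ => if ∀ y, v i (σ • y) = v i y then 1 else -1
  have hχ1 : ∀ σ : G, (∀ y, v i (σ • y) = v i y) → χ σ = 1 := fun σ h => if_pos h
  have hχ2 : ∀ σ : G, (∀ y, v i (σ • y) = -v i y) → χ σ = -1 := by
    intro σ h
    refine if_neg fun h' => ?_
    have h1 := h y₀
    rw [h' y₀] at h1
    omega
  have hχm : ∀ σ κ : G, (∀ y, v i (κ • y) = -v i y) → χ (σ * κ) = -χ σ := by
    intro σ κ hκ
    rcases hS σ with h | h
    · rw [hχ1 σ h, hχ2 (σ * κ) fun y => by rw [mul_smul, h, hκ]]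
    · rw [hχ2 σ h, hχ1 (σ * κ) fun y => by rw [mul_smul, h, hκ, neg_neg], neg_neg]
  let P : M →ₗ[ℚ] M := ∑ σ, χ σ • ρ σ
  have hP : ∀ m, P m = ∑ σ, χ σ • ρ σ m := by
    intro m
    change (∑ σ, χ σ • ρ σ) m = _
    rw [LinearMap.sum_apply]
    rfl
  have hPk : ∀ k, k ≠ i → ∀ x : X k, P (T k x) = 0 := by
    intro k hki x
    obtain ⟨κ, h1, h2⟩ := hk k hki x
    have h3 : P (T k x) = -P (T k x) := by
      rw [hP]
      nth_rewrite 1 [← Equiv.sum_comp (Equiv.mulRight κ) fun σ => χ σ • ρ σ (T k x)]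
      rw [← Finset.sum_neg_distrib]
      refine Finset.sum_congr rfl fun σ _ => ?_
      change χ (σ * κ) • ρ (σ * κ) (T k x) = -(χ σ • ρ σ (T k x))
      rw [hχm σ κ h2, rho_mul, ← (hT k).equiv κ, h1, neg_smul]
    have h4 : (2 : ℚ) • P (T k x) = 0 := by
      rw [two_smul]
      nth_rewrite 1 [h3]
      rw [neg_add_cancel]
    exact (smul_eq_zero.1 h4).resolve_left two_ne_zero
  have hPF : ∀ k, k ≠ i → P (FZ (T k) (v k)) = 0 := by
    intro k hki
    unfold FZ FF
    rw [map_sum]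
    refine Finset.sum_eq_zero fun x _ => ?_
    rw [map_smul, hPk k hki, smul_zero]
  have hPi : P (FZ (T i) (v i)) = (Fintype.card G : ℚ) • FZ (T i) (v i) := by
    rw [hP]
    have h1 : ∀ σ : G, χ σ • ρ σ (FZ (T i) (v i)) = FZ (T i) (v i) := by
      intro σ
      have h2 := FZ_smul (hT i) (v i) σ⁻¹
      rw [inv_inv] at h2
      rw [← h2]
      rcases hS σ with h | h
      · rw [hχ1 σ h, one_smul]
        congr 1
        funext y
        rw [← h (σ⁻¹ • y), smul_inv_smul]
      · rw [hχ2 σ h, neg_one_smul, ← FZ_neg]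
        congr 1
        funext y
        rw [← h (σ⁻¹ • y), smul_inv_smul]
    rw [Finset.sum_congr rfl fun σ _ => h1 σ, Finset.sum_const, Finset.card_univ,
      Nat.cast_smul_eq_nsmul]
  have h5 := congrArg P hv.rel
  rw [map_zero, map_sum, ← Finset.add_sum_erase Finset.univ _ (Finset.mem_univ i),
    Finset.sum_eq_zero (fun k hk => hPF k (Finset.ne_of_mem_erase hk)), add_zero, hPi] at h5
  refine (smul_eq_zero.1 h5).resolve_left ?_
  have h6 : 0 < Fintype.card G := Fintype.card_pos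
  exact_mod_cast h6.ne'

end

end Pool.Agent.Q43.HQ
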