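import Pool.Agent.Q43.HQ.Angle
import Pool.Agent.Y1.CT.UnrelRel

/-!
# Products of abelian varieties with separated Weil numbers and arbitrary varieties
-/

set_option autoImplicit false

namespace Pool.Agent.Q43.HQ

open Polynomial NumberField Module Pool.Agent.TH170 Pool.Agent.Y1.KN Pool.Agent.Y1.CT

variable {p : ℕ} [Fact p.Prime] {a : ℕ} {I : Type} [Fintype I] {K : I → Type}
  [∀ i, Field (K i)] [∀ i, NumberField (K i)] [∀ i, IsCMField (K i)] {π : ∀ i, K i} {f : I → ℤ[X]}

/-- There are no relations with unrelated numbers. -/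
theorem noRel_unrelated (ha : 0 < a)
    (hw : ∀ i, π i * IsCMField.complexConj (K i) (π i) = (p : K i) ^ a)
    (h : IsSeparated (p ^ a) K π) (hf : ∀ i, IsPolyOf (π i) (f i)) :
    Y1.CT.NoRel f (p ^ a) (Unrelated K) := by
  refine ⟨fun i => (hf i).1, unrelated_one K, fun s hs ρ hρ => ?_⟩
  exact exactPair_of_angle (maximalAngleRank
    (Nat.one_lt_pow ha.ne' (Fact.out : p.Prime).one_lt)
    (fun i => by rw [hw i, Nat.cast_pow]) h) hw f hf s hs ρ hρ

/-- There are no relations with independent numbers. -/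
theorem noRel_independent (ha : 0 < a)
    (hw : ∀ i, π i * IsCMField.complexConj (K i) (π i) = (p : K i) ^ a)
    (h : IsSeparated (p ^ a) K π) (hf : ∀ i, IsPolyOf (π i) (f i)) :
    Y1.CT.NoRel f (p ^ a) (Independent K) := by
  refine ⟨fun i => (hf i).1, independent_one K, fun s hs ρ hρ => ?_⟩
  exact exactPair_of_angle (maximalAngleRank
    (Nat.one_lt_pow ha.ne' (Fact.out : p.Prime).one_lt)
    (fun i => by rw [hw i, Nat.cast_pow]) h) hw f hf s hs ρ (unrelated_of_independent hρ)

end Pool.Agent.Q43.HQ
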